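import Pool.Agent.R274.SH.Defs

set_option autoImplicit false

namespace Pool.Agent.R274.SH

open Set Metric Filter Topology

namespace BallAux

abbrev E (n : ℕ) := EuclideanSpace ℝ (Fin (n + 1))

/-- the last `n` coordinates -/
def vv {n : ℕ} (p : E n) : Fin n → ℝ := fun j => p j.succ

/-- the radius in the first coordinate -/
noncomputable def rr {n : ℕ} (p : E n) : ℝ := Real.sqrt (1 - ∑ j, (vv p j) ^ 2)

/-- the parameter -/
noncomputable def ss {n : ℕ} (p : E n) : ℝ := 2 * (p 0 / rr p + 1)

lemma cont_vv {n : ℕ} : Continuous (vv : E n → Fin n → ℝ) := by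
  unfold vv
  fun_prop

lemma cont_rr {n : ℕ} : Continuous (rr : E n → ℝ) := by
  unfold rr
  apply Real.continuous_sqrt.comp
  apply Continuous.sub continuous_const
  apply continuous_finsetSum
  intro j _
  exact ((continuous_apply j).comp cont_vv).pow 2

lemma rr_nonneg {n : ℕ} (p : E n) : 0 ≤ rr p := Real.sqrt_nonneg _

lemma mem_ball_iff {n : ℕ} (p : E n) :
    p ∈ closedBall (0 : E n) 1 ↔ (p 0) ^ 2 + ∑ j, (vv p j) ^ 2 ≤ 1 := by
  rw [mem_closedBall_zero_iff, EuclideanSpace.norm_eq, Real.sqrt_le_one, Fin.sum_univ_succ]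
  simp [vv]

lemma rr_sq {n : ℕ} {p : E n} (hp : p ∈ closedBall (0 : E n) 1) :
    (rr p) ^ 2 = 1 - ∑ j, (vv p j) ^ 2 := by
  rw [mem_ball_iff] at hp
  apply Real.sq_sqrt
  nlinarith [sq_nonneg (p 0)]

lemma abs_le_rr {n : ℕ} {p : E n} (hp : p ∈ closedBall (0 : E n) 1) : |p 0| ≤ rr p := by
  apply abs_le_of_sq_le_sq _ (rr_nonneg p)
  rw [rr_sq hp]
  rw [mem_ball_iff] at hp
  linarith

lemma ss_mem {n : ℕ} {p : E n} (hp : p ∈ closedBall (0 : E n) 1) : ss p ∈ Icc (0 : ℝ) 4 := by
  have h := abs_le_rr hp
  have h0 := rr_nonneg p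
  have h1 : |p 0 / rr p| ≤ 1 := by
    rw [abs_div, abs_of_nonneg h0]
    exact div_le_one_of_le₀ h h0
  rw [abs_le] at h1
  unfold ss
  constructor <;> linarith [h1.1, h1.2]

end BallAux

open BallAux

theorem ball : S_BALL := by
  intro d n T X Y Z c hT hXYZ hc hne hinj
  -- bound for c
  obtain ⟨K, hK⟩ : ∃ K, ∀ s ∈ Icc (0 : ℝ) 4, ‖c s‖ ≤ K :=
    isCompact_Icc.exists_bound_of_continuousOn hc.continuousOn
  set B := closedBall (0 : E n) 1 with hB
  let G : B → Fin d → ℝ := fun p => rr p.1 • c (ss p.1)
  have hr : Continuous (fun p : B => rr p.1) := cont_rr.comp continuous_subtype_val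
  have hG : Continuous G := by
    rw [continuous_iff_continuousAt]
    intro p
    by_cases h : rr p.1 = 0
    · have hGp : G p = 0 := by simp [G, h]
      unfold ContinuousAt
      rw [hGp]
      apply squeeze_zero_norm (a := fun p' : B => rr p'.1 * K)
      · intro p'
        simp only [G]
        rw [norm_smul, Real.norm_of_nonneg (rr_nonneg _)]
        exact mul_le_mul_of_nonneg_left (hK _ (ss_mem p'.2)) (rr_nonneg _)
      · have h2 : Tendsto (fun p' : B => rr p'.1 * K) (𝓝 p) (𝓝 (rr p.1 * K)) :=
          (hr.mul continuous_const).continuousAt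
        rwa [h, zero_mul] at h2
    · have h1 : ContinuousAt (fun p : B => ss p.1) p := by
        unfold ss
        refine ContinuousAt.mul continuousAt_const (ContinuousAt.add ?_ continuousAt_const)
        apply ContinuousAt.div _ hr.continuousAt h
        apply Continuous.continuousAt
        fun_prop
      exact hr.continuousAt.smul (hc.continuousAt.comp h1)
  let F : B → Join T (c '' Icc 0 4) := fun p => ⟨G p + T (vv p.1), by
    refine ⟨c (ss p.1), mem_image_of_mem _ (ss_mem p.2), rr p.1, vv p.1, rr_nonneg _, ?_, rfl⟩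
    rw [rr_sq p.2]; ring⟩
  have hF : Continuous F := by
    apply Continuous.subtype_mk
    apply hG.add
    exact (LinearMap.continuous_on_pi T).comp (cont_vv.comp continuous_subtype_val)
  have hFinj : Function.Injective F := by
    intro p p' hpp
    have h0 : rr p.1 • c (ss p.1) + T (vv p.1) = rr p'.1 • c (ss p'.1) + T (vv p'.1) :=
      congrArg Subtype.val hpp
    have hX : rr p.1 * X (c (ss p.1)) = rr p'.1 * X (c (ss p'.1)) := by
      have := congrArg X h0
      simpa [(hXYZ _).1] using this
    have hY : rr p.1 * Y (c (ss p.1)) = rr p'.1 * Y (c (ss p'.1)) := by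
      have := congrArg Y h0
      simpa [(hXYZ _).2.1] using this
    have hZ : rr p.1 * Z (c (ss p.1)) = rr p'.1 * Z (c (ss p'.1)) := by
      have := congrArg Z h0
      simpa [(hXYZ _).2.2] using this
    have hs := ss_mem p.2
    have hs' := ss_mem p'.2
    have n1 := hne _ hs
    have n2 := hne _ hs'
    -- main claim
    have key : rr p.1 = rr p'.1 ∧ (rr p.1 ≠ 0 → ss p.1 = ss p'.1) := by
      by_cases h : rr p.1 = 0
      · rw [h] at hX hY hZ
        simp only [zero_mul] at hX hY hZ
        have h' : rr p'.1 = 0 := by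
          by_contra h'
          apply n2
          refine ⟨?_, ?_, ?_⟩
          · rcases mul_eq_zero.mp hX.symm with h3 | h3
            · exact absurd h3 h'
            · exact h3
          · rcases mul_eq_zero.mp hY.symm with h3 | h3
            · exact absurd h3 h'
            · exact h3
          · rcases mul_eq_zero.mp hZ.symm with h3 | h3
            · exact absurd h3 h'
            · exact h3
        exact ⟨by rw [h, h'], fun h3 => absurd h h3⟩
      · have h' : rr p'.1 ≠ 0 := by
          intro h'
          rw [h'] at hX hY hZ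
          simp only [zero_mul] at hX hY hZ
          apply n1
          refine ⟨?_, ?_, ?_⟩
          · rcases mul_eq_zero.mp hX with h3 | h3
            · exact absurd h3 h
            · exact h3
          · rcases mul_eq_zero.mp hY with h3 | h3
            · exact absurd h3 h
            · exact h3
          · rcases mul_eq_zero.mp hZ with h3 | h3
            · exact absurd h3 h
            · exact h3
        have hp0 : 0 < rr p.1 := lt_of_le_of_ne (rr_nonneg _) (Ne.symm h)
        have hp0' : 0 < rr p'.1 := lt_of_le_of_ne (rr_nonneg _) (Ne.symm h')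
        have hst : ss p.1 = ss p'.1 := by
          apply hinj _ hs _ hs' (rr p'.1 / rr p.1) (div_pos hp0' hp0)
          · field_simp
            linarith [hX]
          · field_simp
            linarith [hY]
          · field_simp
            linarith [hZ]
        refine ⟨?_, fun _ => hst⟩
        rw [hst] at hX hY hZ
        by_contra hne'
        have hd : rr p.1 - rr p'.1 ≠ 0 := sub_ne_zero.mpr hne'
        apply n2
        refine ⟨?_, ?_, ?_⟩
        · rcases mul_eq_zero.mp (show (rr p.1 - rr p'.1) * X (c (ss p'.1)) = 0 by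
            rw [sub_mul, hX, sub_self]) with h3 | h3
          · exact absurd h3 hd
          · exact h3
        · rcases mul_eq_zero.mp (show (rr p.1 - rr p'.1) * Y (c (ss p'.1)) = 0 by
            rw [sub_mul, hY, sub_self]) with h3 | h3
          · exact absurd h3 hd
          · exact h3
        · rcases mul_eq_zero.mp (show (rr p.1 - rr p'.1) * Z (c (ss p'.1)) = 0 by
            rw [sub_mul, hZ, sub_self]) with h3 | h3
          · exact absurd h3 hd
          · exact h3
    have hG' : rr p.1 • c (ss p.1) = rr p'.1 • c (ss p'.1) := by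
      by_cases h : rr p.1 = 0
      · rw [← key.1, h, zero_smul, zero_smul]
      · rw [← key.1, key.2 h]
    rw [hG'] at h0
    have hv : vv p.1 = vv p'.1 := hT (add_left_cancel h0)
    have hu : p.1 0 = p'.1 0 := by
      by_cases h : rr p.1 = 0
      · have a1 := abs_le_rr p.2
        have a2 := abs_le_rr p'.2
        rw [← key.1, h] at a2
        rw [h] at a1
        rw [abs_nonpos_iff.mp a1, abs_nonpos_iff.mp a2]
      · have h3 := key.2 h
        unfold ss at h3
        rw [← key.1] at h3
        have h4 : p.1 0 / rr p.1 = p'.1 0 / rr p.1 := by linarith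
        field_simp at h4
        exact h4
    apply Subtype.ext
    ext j
    refine Fin.cases hu (fun j => ?_) j
    exact congrFun hv j
  have hFsurj : Function.Surjective F := by
    rintro ⟨y, x, ⟨s, hs, rfl⟩, r, v, hr0, hrv, rfl⟩
    let p : E n := WithLp.toLp 2 (Fin.cons (r * (s / 2 - 1)) v)
    have hp0 : p 0 = r * (s / 2 - 1) := rfl
    have hpv : vv p = v := by
      funext j
      simp [vv, p]
    have hpB : p ∈ B := by
      rw [hB, mem_ball_iff, hp0, hpv]
      have h1 : (s / 2 - 1) ^ 2 ≤ 1 := by
        have := hs.1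
        have := hs.2
        nlinarith
      nlinarith [sq_nonneg r, mul_le_mul_of_nonneg_left h1 (sq_nonneg r)]
    have hrp : rr p = r := by
      unfold rr
      rw [hpv, show 1 - ∑ j, (v j) ^ 2 = r ^ 2 by linarith, Real.sqrt_sq hr0]
    refine ⟨⟨p, hpB⟩, Subtype.ext ?_⟩
    change rr p • c (ss p) + T (vv p) = r • c s + T v
    rw [hpv, hrp]
    congr 1
    by_cases h : r = 0
    · rw [h, zero_smul, zero_smul]
    · have : ss p = s := by
        unfold ss
        rw [hrp, hp0]
        field_simp
        ring
      rw [this]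
  have hbij : Function.Bijective F := ⟨hFinj, hFsurj⟩
  have : CompactSpace B := isCompact_iff_compactSpace.mp (isCompact_closedBall _ _)
  exact ⟨(Continuous.homeoOfEquivCompactToT2 (f := Equiv.ofBijective F hbij) hF).symm⟩

end Pool.Agent.R274.SH
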