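import Pool.Agent.R274.SH.Defs

set_option autoImplicit false

/-!
MP_537073_gt, piece CONT: the path is continuous and the shadows of the two paths agree.
-/

namespace Pool.Agent.R274.SH

open Set Metric

namespace ContAux

theorem cont_of_lip {d : ℕ} {A : ℝ → Fin d → ℝ} {C : ℝ} (hC : 0 ≤ C)
    (h : ∀ s t j, |A s j - A t j| ≤ C * |s - t|) : Continuous A := by
  refine continuous_pi fun j => ?_
  refine (LipschitzWith.of_dist_le_mul (K := ⟨C, hC⟩) fun s t => ?_).continuous
  rw [Real.dist_eq, Real.dist_eq]
  exact h s t j

theorem pw_cont {α : Type*} [TopologicalSpace α] {x1 x2 x3 x4 : ℝ → α} (h1 : Continuous x1)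
    (h2 : Continuous x2) (h3 : Continuous x3) (h4 : Continuous x4) (e1 : x1 1 = x2 1)
    (e2 : x2 2 = x3 2) (e3 : x3 3 = x4 3) : Continuous (pw x1 x2 x3 x4) := by
  unfold pw
  refine h1.if_le ?_ continuous_id continuous_const ?_
  · refine h2.if_le ?_ continuous_id continuous_const ?_
    · refine h3.if_le h4 continuous_id continuous_const ?_
      rintro t ht
      have ht' : t = 3 := ht
      rw [ht', e3]
    · rintro t ht
      have ht' : t = 2 := ht
      rw [ht', e2, if_pos (by norm_num)]
  · rintro t ht
    have ht' : t = 1 := ht
    rw [ht', e1, if_pos (by norm_num)]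

theorem pw_gt {α : Type*} {x1 y1 x2 x3 x4 : ℝ → α} {t : ℝ} (ht : 1 < t) :
    pw x1 x2 x3 x4 t = pw y1 x2 x3 x4 t := by
  unfold pw
  rw [if_neg (not_le.2 ht), if_neg (not_le.2 ht)]

theorem pw_le {α : Type*} {x1 x2 x3 x4 : ℝ → α} {t : ℝ} (ht : t ≤ 1) :
    pw x1 x2 x3 x4 t = x1 t := by
  unfold pw
  rw [if_pos ht]

theorem pw_last {α : Type*} {x1 x2 x3 x4 : ℝ → α} {t : ℝ} (ht : 3 < t) :
    pw x1 x2 x3 x4 t = x4 t := by
  unfold pw
  rw [if_neg (by linarith), if_neg (by linarith), if_neg (by linarith)]

end ContAux

open ContAux

theorem cont : S_CONT := by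
  intro d φ q A B C hG w L M hM
  obtain ⟨hq, hqφ, hA, hB, hAB, hC, hLA, hLB⟩ := hG
  have hAc := cont_of_lip hC hLA
  have hBc := cont_of_lip hC hLB
  -- a difference by a multiple of the i-th unit vector does not change the shadow
  have hupd : ∀ (i : Fin d) (x y : Fin d → ℝ),
      Function.update (x + Pi.single i 1 - y) i 0 = Function.update (x - y) i 0 := by
    intro i x y
    funext j
    by_cases hj : j = i
    · subst hj
      simp
    · simp [Function.update_of_ne hj, Pi.single_eq_of_ne hj]
  refine ⟨fun σ => ?_, fun i => ?_, fun i => ?_⟩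
  · unfold path
    refine pw_cont ?_ ?_ ?_ ?_ ?_ ?_ ?_
    · exact (hBc.comp (by fun_prop)).sub continuous_const
    · fun_prop
    · fun_prop
    · exact (hAc.comp (by fun_prop)).sub continuous_const
    · have h1 : σ + 1 * (M - σ) = M := by ring
      simp only [h1]
      norm_num
    · norm_num
    · have h1 : ((3 : ℝ) - 4) * M = -M := by ring
      simp only [h1]
      norm_num
  · have h1 : path A B w L M (φ i) 0 = A 0 + Pi.single i 1 - L • w := by
      unfold path
      rw [pw_le (by norm_num)]
      have h2 := hAB i 0 (by linarith [hqφ i]) le_rfl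
      rw [zero_add] at h2
      rw [zero_mul, add_zero, h2]
    have h2 : path A B w L M (φ i) 4 = A 0 - L • w := by
      unfold path
      rw [pw_last (by norm_num)]
      rw [sub_self, zero_mul]
    rw [h1, h2, hupd]
  · have hφi := hqφ i
    have hMi := hM i
    have hM0 : 0 < M := by linarith
    apply Subset.antisymm
    · rintro _ ⟨_, ⟨t, ht, rfl⟩, rfl⟩
      rcases lt_or_ge 1 t with h1 | h1
      · refine ⟨t, ht, ?_⟩
        simp only
        rw [show path A B w L M (φ i) t = path A B w L M q t from by
          unfold path; exact pw_gt h1]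
      · rcases le_or_gt (φ i) (q + t * (M - q)) with hs | hs
        · have hpos : 0 < M - φ i := by linarith
          have h2 : (q + t * (M - q) - φ i) / (M - φ i) ≤ 1 := by
            rw [div_le_one hpos]
            nlinarith
          refine ⟨(q + t * (M - q) - φ i) / (M - φ i), ⟨?_, by linarith⟩, ?_⟩
          · exact div_nonneg (by linarith) hpos.le
          · simp only
            unfold path
            rw [pw_le h2, pw_le h1]
            have h3 : φ i + (q + t * (M - q) - φ i) / (M - φ i) * (M - φ i)
                = q + t * (M - q) := by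
              field_simp
              ring
            rw [h3]
        · have h2 : 0 ≤ t * (M - q) := mul_nonneg ht.1 (by linarith)
          have h3 : -1 < (q + t * (M - q) - φ i) / M := by
            rw [lt_div_iff₀ hM0]
            linarith
          have h4 : (q + t * (M - q) - φ i) / M ≤ 0 :=
            div_nonpos_of_nonpos_of_nonneg (by linarith) hM0.le
          refine ⟨4 + (q + t * (M - q) - φ i) / M, ⟨by linarith, by linarith⟩, ?_⟩
          simp only
          unfold path
          rw [pw_last (by linarith), pw_le h1]
          have h5 : (4 + (q + t * (M - q) - φ i) / M - 4) * M = q + t * (M - q) - φ i := by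
            field_simp
            ring
          have h6 := hAB i (q + t * (M - q) - φ i) (by linarith) (by linarith)
          rw [sub_add_cancel] at h6
          rw [h5, h6, hupd]
    · rintro _ ⟨t, ht, rfl⟩
      rcases lt_or_ge 1 t with h1 | h1
      · refine ⟨path A B w L M q t, ⟨t, ht, rfl⟩, ?_⟩
        simp only
        rw [show path A B w L M (φ i) t = path A B w L M q t from by
          unfold path; exact pw_gt h1]
      · have hpos : 0 < M - q := by linarith
        have h0 : 0 ≤ t * (M - φ i) := mul_nonneg ht.1 (by linarith)
        have h2 : (φ i + t * (M - φ i) - q) / (M - q) ≤ 1 := by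
          rw [div_le_one hpos]
          nlinarith
        refine ⟨path A B w L M q ((φ i + t * (M - φ i) - q) / (M - q)),
          ⟨_, ⟨div_nonneg (by linarith) hpos.le, by linarith⟩, rfl⟩, ?_⟩
        simp only
        unfold path
        rw [pw_le h2, pw_le h1]
        have h3 : q + (φ i + t * (M - φ i) - q) / (M - q) * (M - q) = φ i + t * (M - φ i) := by
          field_simp
          ring
        rw [h3]

end Pool.Agent.R274.SH
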