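import Mathlib

set_option autoImplicit false

/-!
MP_537073_gt: coordinate shadows of embedded balls that are spheres.
Definitions and exact statements of the pieces. Proofs: NOTES.md.
-/

namespace Pool.Agent.R274.SH

open Set Metric

/-- the `i`-th coordinate shadow of `A ⊆ ℝ^d` (the `i`-th coordinate is replaced by `0`) -/
def shadow {d : ℕ} (i : Fin d) (A : Set (Fin d → ℝ)) : Set (Fin d → ℝ) :=
  (fun x => Function.update x i 0) '' A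

/-- `A` is homeomorphic to the closed `k`-dimensional ball -/
def IsBall (k : ℕ) {d : ℕ} (A : Set (Fin d → ℝ)) : Prop :=
  Nonempty (A ≃ₜ closedBall (0 : EuclideanSpace ℝ (Fin k)) 1)

/-- `A` is homeomorphic to the `k`-dimensional sphere -/
def IsSphere (k : ℕ) {d : ℕ} (A : Set (Fin d → ℝ)) : Prop :=
  Nonempty (A ≃ₜ sphere (0 : EuclideanSpace ℝ (Fin (k + 1))) 1)

/-- the largest number of coordinate shadows of an embedded `k`-ball in `ℝ^d` that are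
`k`-spheres (`0` when there is no embedded `k`-ball) -/
noncomputable def N (k d : ℕ) : ℕ :=
  sSup {n | ∃ B : Set (Fin d → ℝ), IsBall k B ∧ n = {i | IsSphere k (shadow i B)}.ncard}

/-! ### auxiliary definitions -/

def Phi1 {d : ℕ} (φ : Fin d → ℝ) (x : Fin d → ℝ) : ℝ := ∑ i, φ i * x i
def Phi2 {d : ℕ} (x : Fin d → ℝ) : ℝ := ∑ i, x i

/-- spherical join of `S` with the unit sphere of the image of `T` -/
def Join {d n : ℕ} (T : (Fin n → ℝ) →ₗ[ℝ] (Fin d → ℝ)) (S : Set (Fin d → ℝ)) :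
    Set (Fin d → ℝ) :=
  {y | ∃ x ∈ S, ∃ r : ℝ, ∃ v : Fin n → ℝ, 0 ≤ r ∧ r ^ 2 + ∑ j, (v j) ^ 2 = 1 ∧
    y = r • x + T v}

/-- piecewise functions on `[0,4]` -/
noncomputable def pw {α : Type*} (x1 x2 x3 x4 : ℝ → α) (t : ℝ) : α :=
  if t ≤ 1 then x1 t else if t ≤ 2 then x2 t else if t ≤ 3 then x3 t else x4 t

/-- the closed path: along `B` from parameter `σ` to `M`, then to `w`, then to `A (-M)`,
then along `A` up to parameter `0` -/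
noncomputable def path {d : ℕ} (A B : ℝ → Fin d → ℝ) (w : Fin d → ℝ) (L M σ : ℝ) :
    ℝ → Fin d → ℝ :=
  pw (fun t => B (σ + t * (M - σ)) - L • w)
    (fun t => (2 - t) • (B M - L • w) + (t - 1) • w)
    (fun t => (3 - t) • w + (t - 2) • (A (-M) - L • w))
    (fun t => A ((t - 4) * M) - L • w)

/-- the gadget -/
def IsGadget {d : ℕ} (φ : Fin d → ℝ) (q : ℝ) (A B : ℝ → Fin d → ℝ) (C : ℝ) : Prop :=
  0 < q ∧ (∀ i, q ≤ φ i) ∧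
  (∀ t, Phi1 φ (A t) = t ∧ Phi2 (A t) = 0) ∧
  (∀ t, Phi1 φ (B t) = t ∧ Phi2 (B t) = 1) ∧
  (∀ i, ∀ t, q - φ i ≤ t → t ≤ 0 → B (t + φ i) = A t + Pi.single i 1) ∧
  0 ≤ C ∧ (∀ s t j, |A s j - A t j| ≤ C * |s - t|) ∧ (∀ s t j, |B s j - B t j| ≤ C * |s - t|)

/-! ### the pieces -/

/-- GA -/
def S_GA : Prop := ∀ d : ℕ, 2 ≤ d → ∃ A : ℝ → Fin d → ℝ, ∃ C : ℝ, 0 ≤ C ∧
  (∀ s t j, |A s j - A t j| ≤ C * |s - t|) ∧
  (∀ t, Phi1 (fun i : Fin d => (3 : ℝ) ^ (d - 1 - i.1)) (A t) = t ∧ Phi2 (A t) = 0) ∧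
  (∀ i : Fin d, ∀ j0 : Fin d, j0.1 = 0 → ∀ t : ℝ, 1 - (3 : ℝ) ^ (d - 1 - i.1) ≤ t → t ≤ 0 →
    A (t + (3 : ℝ) ^ (d - 1 - i.1) - (3 : ℝ) ^ (d - 1)) =
      A t + Pi.single i 1 - Pi.single j0 1)

/-- GAD (from GA) -/
def S_GAD : Prop := ∀ d : ℕ, 2 ≤ d → ∃ (φ : Fin d → ℝ) (q : ℝ) (A B : ℝ → Fin d → ℝ) (C : ℝ),
  IsGadget φ q A B C

/-- LIN: linear algebra -/
def S_LIN : Prop := ∀ (d n : ℕ) (φ : Fin d → ℝ), n + 3 ≤ d →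
  ∃ (T : (Fin n → ℝ) →ₗ[ℝ] (Fin d → ℝ)) (w : Fin d → ℝ) (Z : (Fin d → ℝ) →ₗ[ℝ] ℝ),
    Function.Injective T ∧ (∀ v, Phi1 φ (T v) = 0 ∧ Phi2 (T v) = 0 ∧ Z (T v) = 0) ∧
    Phi1 φ w = 0 ∧ Phi2 w = 0 ∧ Z w = 1

/-- RADC: radial injectivity in the plane -/
def S_RADC : Prop := ∀ (a b : ℝ → ℝ) (C K L M f : ℝ), 0 ≤ C → 0 < f → f < M →
  (∀ s t, |a s - a t| ≤ C * |s - t|) → (∀ s t, |b s - b t| ≤ C * |s - t|) →
  (∀ t, |t| ≤ M → |a t| ≤ K) → (∀ t, |t| ≤ M → |b t| ≤ K) → K + M * C < L →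
  ∀ X Z : ℝ → ℝ,
    X = pw (fun t => t * (M - f)) (fun t => (2 - t) * (M - f)) (fun t => (t - 2) * (-M))
      (fun t => (t - 4) * M) →
    Z = pw (fun t => b (f + t * (M - f)) - L) (fun t => (2 - t) * (b M - L) + (t - 1))
      (fun t => (3 - t) + (t - 2) * (a (-M) - L)) (fun t => a ((t - 4) * M) - L) →
    (∀ s ∈ Ico (0 : ℝ) 4, ¬ (X s = 0 ∧ Z s = 0)) ∧
    (∀ s ∈ Ico (0 : ℝ) 4, ∀ t ∈ Ico (0 : ℝ) 4, ∀ l : ℝ, 0 < l →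
      X s = l * X t → Z s = l * Z t → s = t)

/-- RADG: radial injectivity in space -/
def S_RADG : Prop := ∀ (a b : ℝ → ℝ) (C K L M q : ℝ), 0 ≤ C → 0 < q → q < M →
  (∀ s t, |a s - a t| ≤ C * |s - t|) → (∀ s t, |b s - b t| ≤ C * |s - t|) →
  (∀ t, |t| ≤ M → |a t| ≤ K) → (∀ t, |t| ≤ M → |b t| ≤ K) → K + M * C < L →
  ∀ X Y Z : ℝ → ℝ,
    X = pw (fun t => q + t * (M - q)) (fun t => (2 - t) * M) (fun t => (t - 2) * (-M))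
      (fun t => (t - 4) * M) →
    Y = pw (fun _ => 1) (fun t => 2 - t) (fun _ => 0) (fun _ => 0) →
    Z = pw (fun t => b (q + t * (M - q)) - L) (fun t => (2 - t) * (b M - L) + (t - 1))
      (fun t => (3 - t) + (t - 2) * (a (-M) - L)) (fun t => a ((t - 4) * M) - L) →
    (∀ s ∈ Icc (0 : ℝ) 4, ¬ (X s = 0 ∧ Y s = 0 ∧ Z s = 0)) ∧
    (∀ s ∈ Icc (0 : ℝ) 4, ∀ t ∈ Icc (0 : ℝ) 4, ∀ l : ℝ, 0 < l →
      X s = l * X t → Y s = l * Y t → Z s = l * Z t → s = t)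

/-- CONT: the path is continuous and the shadows of the two paths agree -/
def S_CONT : Prop := ∀ (d : ℕ) (φ : Fin d → ℝ) (q : ℝ) (A B : ℝ → Fin d → ℝ) (C : ℝ),
  IsGadget φ q A B C → ∀ (w : Fin d → ℝ) (L M : ℝ), (∀ i, φ i < M) →
    (∀ σ : ℝ, Continuous (path A B w L M σ)) ∧
    (∀ i, Function.update (path A B w L M (φ i) 0) i 0 =
      Function.update (path A B w L M (φ i) 4) i 0) ∧
    (∀ i, shadow i (path A B w L M q '' Icc 0 4) =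
      (fun t => Function.update (path A B w L M (φ i) t) i 0) '' Icc 0 4)

/-- BALL -/
def S_BALL : Prop := ∀ (d n : ℕ) (T : (Fin n → ℝ) →ₗ[ℝ] (Fin d → ℝ))
  (X Y Z : (Fin d → ℝ) →ₗ[ℝ] ℝ) (c : ℝ → Fin d → ℝ), Function.Injective T →
  (∀ v, X (T v) = 0 ∧ Y (T v) = 0 ∧ Z (T v) = 0) → Continuous c →
  (∀ s ∈ Icc (0 : ℝ) 4, ¬ (X (c s) = 0 ∧ Y (c s) = 0 ∧ Z (c s) = 0)) →
  (∀ s ∈ Icc (0 : ℝ) 4, ∀ t ∈ Icc (0 : ℝ) 4, ∀ l : ℝ, 0 < l → X (c s) = l * X (c t) →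
    Y (c s) = l * Y (c t) → Z (c s) = l * Z (c t) → s = t) →
  IsBall (n + 1) (Join T (c '' Icc 0 4))

/-- SPH -/
def S_SPH : Prop := ∀ (d n : ℕ) (T : (Fin n → ℝ) →ₗ[ℝ] (Fin d → ℝ))
  (X Z : (Fin d → ℝ) →ₗ[ℝ] ℝ) (c : ℝ → Fin d → ℝ), Function.Injective T →
  (∀ v, X (T v) = 0 ∧ Z (T v) = 0) → Continuous c → c 0 = c 4 →
  (∀ s ∈ Ico (0 : ℝ) 4, ¬ (X (c s) = 0 ∧ Z (c s) = 0)) →
  (∀ s ∈ Ico (0 : ℝ) 4, ∀ t ∈ Ico (0 : ℝ) 4, ∀ l : ℝ, 0 < l → X (c s) = l * X (c t) →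
    Z (c s) = l * Z (c t) → s = t) →
  IsSphere (n + 1) (Join T (c '' Icc 0 4))

/-- NOEMB: a sphere of dimension `k ≥ 1` does not embed in `ℝ^m`, `m ≤ k` -/
def S_NOEMB : Prop := ∀ (k m : ℕ), 1 ≤ k → m ≤ k →
  ¬ ∃ f : sphere (0 : EuclideanSpace ℝ (Fin (k + 1))) 1 → EuclideanSpace ℝ (Fin m),
    Continuous f ∧ Function.Injective f

/-- SHAD: a shadow in `ℝ^d` that is a `k`-sphere gives an embedding in `ℝ^(d-1)`,
hence there is none for `d ≤ k + 1` -/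
def S_SHAD : Prop := ∀ (k d : ℕ), 1 ≤ k → d ≤ k + 1 → ∀ (B : Set (Fin d → ℝ)) (i : Fin d),
  ¬ IsSphere k (shadow i B)

/-- LOW: the construction -/
def S_LOW : Prop := ∀ (k d : ℕ), 1 ≤ k → k + 2 ≤ d → ∃ B : Set (Fin d → ℝ), IsBall k B ∧
  ∀ i, IsSphere k (shadow i B)

/-- the final statement -/
def S_FINAL : Prop := (∀ k d : ℕ, 1 ≤ k → k + 2 ≤ d → N k d = d) ∧
  (∀ k d : ℕ, 1 ≤ k → d ≤ k + 1 → N k d = 0)

end Pool.Agent.R274.SH
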