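import Pool.Agent.R274.SH.Defs

set_option autoImplicit false

namespace Pool.Agent.R274.SH

open Set Metric

namespace ExAux

/-- the standard inclusion `ℝ^k → ℝ^d` -/
noncomputable def inc (k d : ℕ) (x : EuclideanSpace ℝ (Fin k)) : Fin d → ℝ :=
  fun i => if h : i.1 < k then x ⟨i.1, h⟩ else 0

lemma inc_cont (k d : ℕ) : Continuous (inc k d) := by
  refine continuous_pi fun i => ?_
  unfold inc
  by_cases h : i.1 < k
  · simp only [h, dite_true]
    fun_prop
  · simp only [h, dite_false]
    exact continuous_const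

lemma inc_inj {k d : ℕ} (h : k ≤ d) : Function.Injective (inc k d) := by
  intro x y hxy
  ext i
  have := congrFun hxy ⟨i.1, lt_of_lt_of_le i.2 h⟩
  simpa [inc] using this

end ExAux

theorem ex (k d : ℕ) (h : k ≤ d) : ∃ B : Set (Fin d → ℝ), IsBall k B := by
  let f : closedBall (0 : EuclideanSpace ℝ (Fin k)) 1 → (Fin d → ℝ) := fun x => ExAux.inc k d x
  have hf : Continuous f := (ExAux.inc_cont k d).comp continuous_subtype_val
  have hi : Function.Injective f := (ExAux.inc_inj h).comp Subtype.val_injective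
  haveI : CompactSpace (closedBall (0 : EuclideanSpace ℝ (Fin k)) 1) :=
    isCompact_iff_compactSpace.1 (isCompact_closedBall _ _)
  have he : Topology.IsEmbedding f := (hf.isClosedEmbedding hi).isEmbedding
  exact ⟨Set.range f, ⟨he.toHomeomorph.symm⟩⟩

theorem noball (hN : S_NOEMB) (k d : ℕ) (hd : 2 ≤ d) (h : d < k) (B : Set (Fin d → ℝ)) :
    ¬ IsBall k B := by
  rintro ⟨e⟩
  obtain ⟨m, rfl⟩ : ∃ m, k = m + 1 := ⟨k - 1, by omega⟩
  refine hN m d (by omega) (by omega) ⟨fun x => (EuclideanSpace.equiv (Fin d) ℝ).symm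
    (e.symm ⟨x, sphere_subset_closedBall x.2⟩ : Fin d → ℝ), ?_, ?_⟩
  · refine (EuclideanSpace.equiv (Fin d) ℝ).symm.continuous.comp ?_
    refine continuous_subtype_val.comp (e.symm.continuous.comp ?_)
    exact Continuous.subtype_mk continuous_subtype_val _
  · intro x y hxy
    have h1 := (EuclideanSpace.equiv (Fin d) ℝ).symm.injective hxy
    have h2 := e.symm.injective (Subtype.ext h1)
    have h3 := congrArg Subtype.val h2
    exact Subtype.ext h3

end Pool.Agent.R274.SH
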