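import Pool.Agent.R274.SH.Defs

set_option autoImplicit false

namespace Pool.Agent.R274.SH

open Set Metric

theorem fin (hlow : S_LOW) (hshad : S_SHAD) : S_FINAL := by
  constructor
  · intro k d hk hkd
    obtain ⟨B, hB, hS⟩ := hlow k d hk hkd
    refine IsGreatest.csSup_eq ⟨⟨B, hB, ?_⟩, ?_⟩
    · have : {i | IsSphere k (shadow i B)} = (Set.univ : Set (Fin d)) := by
        ext i
        simp [hS i]
      rw [this, Set.ncard_univ, Nat.card_eq_fintype_card, Fintype.card_fin]
    · rintro n ⟨B', _, rfl⟩
      have h := Set.ncard_le_ncard (Set.subset_univ {i | IsSphere k (shadow i B')})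
        Set.finite_univ
      rwa [Set.ncard_univ, Nat.card_eq_fintype_card, Fintype.card_fin] at h
  · intro k d hk hkd
    have h : ∀ n ∈ {n | ∃ B : Set (Fin d → ℝ), IsBall k B ∧
        n = {i | IsSphere k (shadow i B)}.ncard}, n ≤ 0 := by
      rintro n ⟨B, _, rfl⟩
      have : {i | IsSphere k (shadow i B)} = (∅ : Set (Fin d)) := by
        ext i
        simp [hshad k d hk hkd B i]
      rw [this, Set.ncard_empty]
    by_cases hne : {n | ∃ B : Set (Fin d → ℝ), IsBall k B ∧
        n = {i | IsSphere k (shadow i B)}.ncard}.Nonempty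
    · exact Nat.le_zero.1 (csSup_le hne h)
    · rw [Set.not_nonempty_iff_eq_empty] at hne
      unfold N
      rw [hne]
      simp

end Pool.Agent.R274.SH
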