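import Pool.Agent.R274.SH.Defs

/-!
MP_537073_gt, piece GA: the gadget curve, by downward induction.
-/

set_option autoImplicit false

namespace Pool.Agent.R274.SH

open Set Metric

namespace GaAux

variable {d : ℕ}

theorem phi1_add (φ x y : Fin d → ℝ) : Phi1 φ (x + y) = Phi1 φ x + Phi1 φ y := by
  simp only [Phi1, Pi.add_apply, mul_add, Finset.sum_add_distrib]

theorem phi1_sub (φ x y : Fin d → ℝ) : Phi1 φ (x - y) = Phi1 φ x - Phi1 φ y := by
  simp only [Phi1, Pi.sub_apply, mul_sub, Finset.sum_sub_distrib]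

theorem phi1_smul (φ x : Fin d → ℝ) (c : ℝ) : Phi1 φ (c • x) = c * Phi1 φ x := by
  simp only [Phi1, Pi.smul_apply, smul_eq_mul, Finset.mul_sum]
  exact Finset.sum_congr rfl fun i _ => by ring

theorem phi1_single (φ : Fin d → ℝ) (i : Fin d) : Phi1 φ (Pi.single i 1) = φ i := by
  unfold Phi1
  rw [Finset.sum_eq_single i]
  · rw [Pi.single_eq_same, mul_one]
  · intro j _ hj
    rw [Pi.single_eq_of_ne hj, mul_zero]
  · intro h
    exact absurd (Finset.mem_univ i) h

theorem phi2_eq (x : Fin d → ℝ) : Phi2 x = Phi1 (fun _ => 1) x := by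
  simp only [Phi1, Phi2, one_mul]

/-- the claim of the induction -/
def P (d : ℕ) (m : ℕ) (hm : m < d) : Prop := ∃ A : ℝ → Fin d → ℝ, ∃ C : ℝ, 0 ≤ C ∧
  (∀ s t j, |A s j - A t j| ≤ C * |s - t|) ∧
  (∀ t, Phi1 (fun i : Fin d => (3 : ℝ) ^ (d - 1 - i.1)) (A t) = t ∧ Phi2 (A t) = 0) ∧
  (∀ i : Fin d, m ≤ i.1 → ∀ t : ℝ, 1 - (3 : ℝ) ^ (d - 1 - i.1) ≤ t → t ≤ 0 →
    A (t + (3 : ℝ) ^ (d - 1 - i.1) - (3 : ℝ) ^ (d - 1 - m)) =
      A t + Pi.single i 1 - Pi.single ⟨m, hm⟩ 1)

theorem base (d : ℕ) (hd : 2 ≤ d) (m : ℕ) (hm : m < d) (h : m + 0 = d - 1) : P d m hm := by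
  set i0 : Fin d := ⟨0, by omega⟩ with hi0
  set i1 : Fin d := ⟨1, by omega⟩ with hi1
  set c : ℝ := (3 : ℝ) ^ (d - 1) - (3 : ℝ) ^ (d - 1 - 1) with hc
  have hcpos : 0 < c := by
    have h1 : (3 : ℝ) ^ (d - 1 - 1) < (3 : ℝ) ^ (d - 1) :=
      pow_lt_pow_right₀ (by norm_num) (by omega)
    rw [hc]
    linarith
  refine ⟨fun t => t • (c⁻¹ • (Pi.single i0 1 - Pi.single i1 1)), c⁻¹, by positivity, ?_, ?_, ?_⟩
  · intro s t j
    simp only [Pi.smul_apply, Pi.sub_apply, smul_eq_mul]
    rw [← sub_mul, abs_mul, mul_comm, abs_mul, abs_of_pos (inv_pos.2 hcpos)]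
    have h1 : |(Pi.single i0 (1 : ℝ) : Fin d → ℝ) j - (Pi.single i1 (1 : ℝ) : Fin d → ℝ) j| ≤ 1 := by
      have hne : i0 ≠ i1 := by
        intro h
        have := congrArg Fin.val h
        simp [hi0, hi1] at this
      by_cases h0 : j = i0
      · subst h0
        rw [Pi.single_eq_same, Pi.single_eq_of_ne hne]
        norm_num
      · by_cases h1 : j = i1
        · subst h1
          rw [Pi.single_eq_same, Pi.single_eq_of_ne h0]
          norm_num
        · rw [Pi.single_eq_of_ne h0, Pi.single_eq_of_ne h1]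
          norm_num
    have h2 : 0 ≤ |s - t| := abs_nonneg _
    have h3 : 0 < c⁻¹ := inv_pos.2 hcpos
    calc c⁻¹ * |(Pi.single i0 (1 : ℝ) : Fin d → ℝ) j - (Pi.single i1 (1 : ℝ) : Fin d → ℝ) j| *
          |s - t| ≤ c⁻¹ * 1 * |s - t| := by gcongr
      _ = c⁻¹ * |s - t| := by ring
  · intro t
    rw [phi1_smul, phi1_smul, phi1_sub, phi1_single, phi1_single, phi2_eq, phi1_smul, phi1_smul,
      phi1_sub, phi1_single, phi1_single]
    constructor
    · have h1 : (3 : ℝ) ^ (d - 1 - i0.1) - (3 : ℝ) ^ (d - 1 - i1.1) = c := by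
        rw [hc]
        simp [hi0, hi1]
      rw [h1, inv_mul_cancel₀ hcpos.ne', mul_one]
    · ring
  · intro i hi t _ _
    have hi' : i.1 = m := by
      have := i.2
      omega
    have hi'' : i = ⟨m, hm⟩ := Fin.ext hi'
    subst hi''
    simp

theorem clamp_eq1 {p q t : ℝ} (hpq : p < q) (h : t ≤ p) : max 0 (min (t - p) (q - p)) = 0 := by
  rw [max_eq_left]
  exact (min_le_left _ _).trans (by linarith)

theorem clamp_eq2 {p q t : ℝ} (hpq : p < q) (h : q ≤ t) :
    max 0 (min (t - p) (q - p)) = q - p := by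
  rw [min_eq_right (by linarith), max_eq_right (by linarith)]

theorem clamp_eq3 {p q t : ℝ} (h1 : p ≤ t) (h2 : t ≤ q) :
    max 0 (min (t - p) (q - p)) = t - p := by
  rw [min_eq_left (by linarith), max_eq_right (by linarith)]

theorem min_lip (p s t : ℝ) : |min (s - p) 0 - min (t - p) 0| ≤ |s - t| := by
  have h := abs_min_sub_min_le_max (s - p) 0 (t - p) 0
  rw [sub_self, abs_zero, show s - p - (t - p) = s - t by ring,
    max_eq_left (abs_nonneg _)] at h
  exact h

theorem max_lip (q s t : ℝ) : |max s q - max t q| ≤ |s - t| := by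
  have h := abs_max_sub_max_le_max s q t q
  rw [sub_self, abs_zero, max_eq_left (abs_nonneg (s - t))] at h
  exact h

theorem clamp_lip (p q s t : ℝ) :
    |max 0 (min (s - p) (q - p)) - max 0 (min (t - p) (q - p))| ≤ |s - t| := by
  have h := abs_max_sub_max_le_max 0 (min (s - p) (q - p)) 0 (min (t - p) (q - p))
  rw [sub_self, abs_zero,
    max_eq_right (abs_nonneg (min (s - p) (q - p) - min (t - p) (q - p)))] at h
  have h' := abs_min_sub_min_le_max (s - p) (q - p) (t - p) (q - p)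
  rw [sub_self, abs_zero, show s - p - (t - p) = s - t by ring,
    max_eq_left (abs_nonneg _)] at h'
  exact h.trans h'

theorem step (d : ℕ) (m : ℕ) (hm : m < d) (hm' : m + 1 < d) (ih : P d (m + 1) hm') :
    P d m hm := by
  obtain ⟨A, C, hC, hL, hPhi, hA⟩ := ih
  set φ : Fin d → ℝ := fun i => (3 : ℝ) ^ (d - 1 - i.1) with hφ
  set u : ℝ := (3 : ℝ) ^ (d - 1 - (m + 1)) with hu
  have hu1 : 1 ≤ u := one_le_pow₀ (by norm_num)
  have hum : (3 : ℝ) ^ (d - 1 - m) = 3 * u := by
    rw [hu, show d - 1 - m = (d - 1 - (m + 1)) + 1 by omega, pow_succ]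
    ring
  set p : ℝ := u - 3 * u with hp
  set q : ℝ := 1 - u with hq
  have hpq : p < q := by
    rw [hp, hq]
    linarith
  set E : Fin d → ℝ := Pi.single ⟨m + 1, hm'⟩ 1 - Pi.single ⟨m, hm⟩ 1 with hE
  set v0 : Fin d → ℝ := A 0 + E with hv0
  set v1 : Fin d → ℝ := A q with hv1
  have hE1 : Phi1 φ E = p := by
    rw [hE, phi1_sub, phi1_single, phi1_single]
    simp only [hφ]
    rw [← hu, hum]
  have hE2 : Phi2 E = 0 := by
    rw [hE, phi2_eq, phi1_sub, phi1_single, phi1_single, sub_self]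
  clear_value E v0 v1
  set cl : ℝ → ℝ := fun t => max 0 (min (t - p) (q - p)) with hcl
  set G : ℝ → Fin d → ℝ := fun t =>
    A (min (t - p) 0) + E + (cl t / (q - p)) • (v1 - v0) + (A (max t q) - v1) with hG
  have hG1 : ∀ t, t ≤ p → G t = A (t - p) + E := by
    intro t ht
    simp only [hG, hcl]
    rw [clamp_eq1 hpq ht, min_eq_left (by linarith), max_eq_right (by linarith), zero_div,
      zero_smul, add_zero, ← hv1, sub_self, add_zero]
  have hG2 : ∀ t, q ≤ t → G t = A t := by
    intro t ht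
    simp only [hG, hcl]
    rw [clamp_eq2 hpq ht, min_eq_right (by linarith), max_eq_left ht,
      div_self (by linarith), one_smul, hv0]
    abel
  refine ⟨G, 2 * C + ∑ j, |v1 j - v0 j| / (q - p), ?_, ?_, ?_, ?_⟩
  · have hqp : 0 < q - p := by linarith
    positivity
  · intro s t j
    have hqp : 0 < q - p := by linarith
    have e : G s j - G t j = (A (min (s - p) 0) j - A (min (t - p) 0) j) +
        (cl s - cl t) * ((v1 j - v0 j) / (q - p)) + (A (max s q) j - A (max t q) j) := by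
      simp only [hG, Pi.add_apply, Pi.sub_apply, Pi.smul_apply, smul_eq_mul]
      field_simp
      ring
    rw [e]
    have h1 : |A (min (s - p) 0) j - A (min (t - p) 0) j| ≤ C * |s - t| :=
      (hL _ _ j).trans (mul_le_mul_of_nonneg_left (min_lip p s t) hC)
    have h2 : |A (max s q) j - A (max t q) j| ≤ C * |s - t| :=
      (hL _ _ j).trans (mul_le_mul_of_nonneg_left (max_lip q s t) hC)
    have h3 : |(cl s - cl t) * ((v1 j - v0 j) / (q - p))| ≤
        (∑ j, |v1 j - v0 j| / (q - p)) * |s - t| := by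
      rw [abs_mul, mul_comm, abs_div, abs_of_pos hqp]
      apply mul_le_mul _ (clamp_lip p q s t) (abs_nonneg _)
      · exact Finset.sum_nonneg fun j _ => by positivity
      · exact Finset.single_le_sum (f := fun j => |v1 j - v0 j| / (q - p))
          (fun j _ => by positivity) (Finset.mem_univ j)
    calc |(A (min (s - p) 0) j - A (min (t - p) 0) j) +
        (cl s - cl t) * ((v1 j - v0 j) / (q - p)) + (A (max s q) j - A (max t q) j)|
        ≤ |A (min (s - p) 0) j - A (min (t - p) 0) j| +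
          |(cl s - cl t) * ((v1 j - v0 j) / (q - p))| + |A (max s q) j - A (max t q) j| :=
          abs_add_three _ _ _
      _ ≤ C * |s - t| + (∑ j, |v1 j - v0 j| / (q - p)) * |s - t| + C * |s - t| := by
          linarith
      _ = (2 * C + ∑ j, |v1 j - v0 j| / (q - p)) * |s - t| := by ring
  · intro t
    have hqp : q - p ≠ 0 := by linarith
    have hv01 : Phi1 φ v0 = p := by
      rw [hv0, phi1_add, (hPhi 0).1, hE1, zero_add]
    have hv11 : Phi1 φ v1 = q := by rw [hv1]; exact (hPhi q).1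
    have hv02 : Phi2 v0 = 0 := by
      have h1 := (hPhi 0).2
      rw [phi2_eq] at h1 hE2 ⊢
      rw [hv0, phi1_add, h1, hE2, zero_add]
    have hv12 : Phi2 v1 = 0 := by rw [hv1]; exact (hPhi q).2
    constructor
    · simp only [hG]
      rw [phi1_add, phi1_add, phi1_add, phi1_smul, phi1_sub, phi1_sub, (hPhi _).1, (hPhi _).1,
        hE1, hv01, hv11, div_mul_cancel₀ _ hqp]
      simp only [hcl]
      rcases le_total t p with h | h
      · rw [clamp_eq1 hpq h, min_eq_left (by linarith), max_eq_right (by linarith)]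
        ring
      · rcases le_total t q with h' | h'
        · rw [clamp_eq3 h h', min_eq_right (by linarith), max_eq_right h']
          ring
        · rw [clamp_eq2 hpq h', min_eq_right (by linarith), max_eq_left h']
          ring
    · simp only [hG]
      have h1 := (hPhi (min (t - p) 0)).2
      have h2 := (hPhi (max t q)).2
      rw [phi2_eq] at h1 h2 hE2 hv02 hv12 ⊢
      rw [phi1_add, phi1_add, phi1_add, phi1_smul, phi1_sub, phi1_sub, h1, h2, hE2, hv02, hv12]
      ring
  · intro i hi t ht1 ht2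
    rcases Nat.eq_or_lt_of_le hi with h | h
    · have hi'' : i = ⟨m, hm⟩ := Fin.ext h.symm
      subst hi''
      simp
    · have hφi : (3 : ℝ) ^ (d - 1 - i.1) ≤ u := by
        rw [hu]
        exact pow_le_pow_right₀ (by norm_num) (by omega)
      have htq : q ≤ t := by
        rw [hq]
        linarith
      have hx : t + (3 : ℝ) ^ (d - 1 - i.1) - (3 : ℝ) ^ (d - 1 - m) ≤ p := by
        rw [hum, hp]
        linarith
      rw [hG1 _ hx, hG2 t htq]
      have h2 := hA i h t ht1 ht2
      have h3 : t + (3 : ℝ) ^ (d - 1 - i.1) - (3 : ℝ) ^ (d - 1 - m) - p =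
          t + (3 : ℝ) ^ (d - 1 - i.1) - (3 : ℝ) ^ (d - 1 - (m + 1)) := by
        rw [hum, hp, ← hu]
        ring
      rw [h3, h2, hE]
      abel

theorem all (d : ℕ) (hd : 2 ≤ d) (n : ℕ) : ∀ (m : ℕ) (hm : m < d), m + n = d - 1 → P d m hm := by
  induction n with
  | zero => exact fun m hm h => base d hd m hm h
  | succ n ih =>
    intro m hm h
    exact step d m hm (by omega) (ih (m + 1) (by omega) (by omega))

end GaAux

theorem ga : S_GA := by
  intro d hd
  obtain ⟨A, C, hC, hL, hPhi, hA⟩ := GaAux.all d hd (d - 1) 0 (by omega) (by omega)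
  refine ⟨A, C, hC, hL, hPhi, ?_⟩
  intro i j0 hj0 t ht1 ht2
  have h := hA i (Nat.zero_le _) t ht1 ht2
  have hj : j0 = ⟨0, by omega⟩ := Fin.ext hj0
  rw [hj]
  simpa using h

end Pool.Agent.R274.SH
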