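import Pool.Agent.R274.SH.Defs

/-!
The gadget from the curve `A`.
-/

namespace Pool.Agent.R274.SH

namespace GadAux

lemma phi1_single {d : ℕ} (φ : Fin d → ℝ) (i : Fin d) :
    Phi1 φ (Pi.single i (1 : ℝ)) = φ i := by
  unfold Phi1
  rw [Finset.sum_eq_single i]
  · simp
  · intro j _ hj
    simp [Pi.single_eq_of_ne hj]
  · simp

lemma phi2_single {d : ℕ} (i : Fin d) : Phi2 (Pi.single i (1 : ℝ)) = 1 := by
  unfold Phi2
  rw [Finset.sum_eq_single i]
  · simp
  · intro j _ hj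
    simp [Pi.single_eq_of_ne hj]
  · simp

lemma phi1_add {d : ℕ} (φ x y : Fin d → ℝ) : Phi1 φ (x + y) = Phi1 φ x + Phi1 φ y := by
  unfold Phi1
  rw [← Finset.sum_add_distrib]
  refine Finset.sum_congr rfl fun i _ => ?_
  rw [Pi.add_apply, mul_add]

lemma phi2_add {d : ℕ} (x y : Fin d → ℝ) : Phi2 (x + y) = Phi2 x + Phi2 y := by
  unfold Phi2
  rw [← Finset.sum_add_distrib]
  rfl

end GadAux

theorem gad : S_GA → S_GAD := by
  intro hGA d hd
  obtain ⟨A, C, hC, hL, hP, hE⟩ := hGA d hd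
  set φ : Fin d → ℝ := fun i => (3 : ℝ) ^ (d - 1 - i.1) with hφ
  have hd0 : 0 < d := by omega
  set z : Fin d := ⟨0, hd0⟩ with hz
  have hφz : φ z = (3 : ℝ) ^ (d - 1) := by simp [hφ, hz]
  refine ⟨φ, 1, A, fun s => A (s - φ z) + Pi.single z 1, C, one_pos, ?_, hP, ?_, ?_, hC, hL, ?_⟩
  · intro i
    exact one_le_pow₀ (by norm_num)
  · intro t
    constructor
    · rw [GadAux.phi1_add, (hP _).1, GadAux.phi1_single]
      ring
    · rw [GadAux.phi2_add, (hP _).2, GadAux.phi2_single]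
      ring
  · intro i t h1 h2
    have h := hE i z rfl t h1 h2
    change A (t + φ i - φ z) + Pi.single z 1 = A t + Pi.single i 1
    rw [hφz]
    change A (t + (3 : ℝ) ^ (d - 1 - i.1) - (3 : ℝ) ^ (d - 1)) + Pi.single z 1 = _
    rw [h]
    abel
  · intro s t j
    have h := hL (s - φ z) (t - φ z) j
    simp only [Pi.add_apply, add_sub_add_right_eq_sub]
    rw [sub_sub_sub_cancel_right] at h
    exact h

end Pool.Agent.R274.SH
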