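import Pool.Agent.R274.SH.Defs

set_option autoImplicit false

namespace Pool.Agent.R274.SH

namespace LinAux

/-- `Phi1` and `Phi2` as a linear map to the plane -/
noncomputable def F2 {d : ℕ} (φ : Fin d → ℝ) : (Fin d → ℝ) →ₗ[ℝ] ℝ × ℝ :=
  LinearMap.prod (∑ i, φ i • LinearMap.proj i) (∑ i, LinearMap.proj i)

theorem F2_apply {d : ℕ} (φ : Fin d → ℝ) (x : Fin d → ℝ) : F2 φ x = (Phi1 φ x, Phi2 x) := by
  simp [F2, Phi1, Phi2, LinearMap.sum_apply]

theorem exists_li (d n : ℕ) (φ : Fin d → ℝ) (h : n + 3 ≤ d) :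
    ∃ u : Fin (n + 1) → Fin d → ℝ, LinearIndependent ℝ u ∧
      ∀ j, Phi1 φ (u j) = 0 ∧ Phi2 (u j) = 0 := by
  have h1 := LinearMap.finrank_range_add_finrank_ker (F2 φ)
  have h2 : Module.finrank ℝ (LinearMap.range (F2 φ)) ≤ 2 := by
    refine (Submodule.finrank_le _).trans ?_
    simp
  have h3 : Module.finrank ℝ (Fin d → ℝ) = d := by simp
  rw [h3] at h1
  have h4 : n + 1 ≤ Module.finrank ℝ (LinearMap.ker (F2 φ)) := by omega
  let b := Module.finBasis ℝ (LinearMap.ker (F2 φ))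
  refine ⟨fun j => (b (Fin.castLE h4 j) : Fin d → ℝ), ?_, fun j => ?_⟩
  · have h5 : LinearIndependent ℝ (fun j => b (Fin.castLE h4 j)) :=
      b.linearIndependent.comp _ (Fin.castLE_injective h4)
    exact h5.map' (LinearMap.ker (F2 φ)).subtype (Submodule.ker_subtype _)
  · have h6 : F2 φ (b (Fin.castLE h4 j)) = 0 := (b (Fin.castLE h4 j)).2
    rw [F2_apply] at h6
    exact ⟨congrArg Prod.fst h6, congrArg Prod.snd h6⟩

theorem Phi1_lin {d : ℕ} (φ : Fin d → ℝ) (x : Fin d → ℝ) : Phi1 φ x = (F2 φ x).1 := by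
  rw [F2_apply]

theorem Phi2_lin {d : ℕ} (φ : Fin d → ℝ) (x : Fin d → ℝ) : Phi2 x = (F2 φ x).2 := by
  rw [F2_apply]

end LinAux

open LinAux

theorem lin : S_LIN := by
  intro d n φ h
  obtain ⟨u, hu, hu0⟩ := exists_li d n φ h
  have hk : LinearMap.ker (Fintype.linearCombination ℝ u) = ⊥ :=
    LinearMap.ker_eq_bot.2 (linearIndependent_iff_injective_fintypeLinearCombination.1 hu)
  obtain ⟨g, hg⟩ := LinearMap.exists_leftInverse_of_injective _ hk
  have hZ : ∀ j, g (u j) = Pi.single j 1 := by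
    intro j
    have h1 := congrArg (fun f => f (Pi.single j 1)) hg
    simpa using h1
  have hz : ∀ j, F2 φ (u j) = 0 := by
    intro j
    rw [F2_apply, (hu0 j).1, (hu0 j).2]
    rfl
  have hT : LinearIndependent ℝ (fun j : Fin n => u j.castSucc) :=
    hu.comp _ (Fin.castSucc_injective n)
  refine ⟨Fintype.linearCombination ℝ (fun j : Fin n => u j.castSucc), u (Fin.last n),
    (LinearMap.proj (Fin.last n)).comp g, linearIndependent_iff_injective_fintypeLinearCombination.1 hT,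
    fun v => ?_, (hu0 _).1, (hu0 _).2, ?_⟩
  · have h1 : F2 φ (Fintype.linearCombination ℝ (fun j : Fin n => u j.castSucc) v) = 0 := by
      rw [Fintype.linearCombination_apply, map_sum]
      exact Finset.sum_eq_zero fun j _ => by rw [map_smul, hz, smul_zero]
    refine ⟨?_, ?_, ?_⟩
    · rw [Phi1_lin, h1]; rfl
    · rw [Phi2_lin φ, h1]; rfl
    · rw [LinearMap.comp_apply, Fintype.linearCombination_apply, map_sum, map_sum]
      refine Finset.sum_eq_zero fun j _ => ?_
      rw [map_smul, map_smul, hZ]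
      simp [Fin.last_eq_zero_iff, (Fin.castSucc_lt_last j).ne']
  · rw [LinearMap.comp_apply, hZ]
    simp

end Pool.Agent.R274.SH
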