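import Pool.Agent.R274.SH.Defs

set_option autoImplicit false

namespace Pool.Agent.R274.SH

open Set Metric

namespace LowAux

variable {d : ℕ}

noncomputable def P1 (φ : Fin d → ℝ) : (Fin d → ℝ) →ₗ[ℝ] ℝ where
  toFun := Phi1 φ
  map_add' x y := by
    simp only [Phi1, Pi.add_apply, mul_add, Finset.sum_add_distrib]
  map_smul' c x := by
    simp only [Phi1, Pi.smul_apply, smul_eq_mul, RingHom.id_apply, Finset.mul_sum]
    refine Finset.sum_congr rfl fun i _ => ?_
    ring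

noncomputable def P2 : (Fin d → ℝ) →ₗ[ℝ] ℝ where
  toFun := Phi2
  map_add' x y := by
    simp only [Phi2, Pi.add_apply, Finset.sum_add_distrib]
  map_smul' c x := by
    simp only [Phi2, Pi.smul_apply, smul_eq_mul, RingHom.id_apply, Finset.mul_sum]

@[simp] lemma P1_apply (φ : Fin d → ℝ) (x : Fin d → ℝ) : P1 φ x = Phi1 φ x := rfl
@[simp] lemma P2_apply (x : Fin d → ℝ) : P2 x = Phi2 x := rfl

lemma P1_single (φ : Fin d → ℝ) (i : Fin d) : Phi1 φ (Pi.single i 1) = φ i := by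
  simp [Phi1, Pi.single_apply]

lemma P2_single (i : Fin d) : Phi2 (Pi.single i (1 : ℝ)) = 1 := by
  simp [Phi2, Pi.single_apply]

/-- killing a coordinate -/
noncomputable def kill (i : Fin d) : (Fin d → ℝ) →ₗ[ℝ] (Fin d → ℝ) where
  toFun x := Function.update x i 0
  map_add' x y := by
    ext j
    by_cases h : j = i
    · subst h; simp
    · simp [Function.update_of_ne h]
  map_smul' c x := by
    ext j
    by_cases h : j = i
    · subst h; simp
    · simp [Function.update_of_ne h]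

@[simp] lemma kill_apply (i : Fin d) (x : Fin d → ℝ) : kill i x = Function.update x i 0 := rfl

lemma kill_eq (i : Fin d) (x : Fin d → ℝ) : kill i x = x - x i • Pi.single i (1 : ℝ) := by
  ext j
  by_cases h : j = i
  · subst h; simp
  · simp [Function.update_of_ne h, Pi.single_apply, h]

lemma kill_inv (F : (Fin d → ℝ) →ₗ[ℝ] ℝ) (i : Fin d) (hF : F (Pi.single i 1) = 0)
    (x : Fin d → ℝ) : F (Function.update x i 0) = F x := by
  rw [← kill_apply, kill_eq, map_sub, map_smul, hF]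
  simp

lemma shadow_join {n : ℕ} (T : (Fin n → ℝ) →ₗ[ℝ] (Fin d → ℝ)) (i : Fin d)
    (S : Set (Fin d → ℝ)) :
    shadow i (Join T S) = Join ((kill i).comp T) (shadow i S) := by
  ext y
  constructor
  · rintro ⟨_, ⟨x, hx, r, v, hr, hv, rfl⟩, rfl⟩
    refine ⟨Function.update x i 0, ⟨x, hx, rfl⟩, r, v, hr, hv, ?_⟩
    have := (kill i).map_add (r • x) (T v)
    rw [(kill i).map_smul] at this
    exact this
  · rintro ⟨_, ⟨x, hx, rfl⟩, r, v, hr, hv, rfl⟩
    refine ⟨r • x + T v, ⟨x, hx, r, v, hr, hv, rfl⟩, ?_⟩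
    have := (kill i).map_add (r • x) (T v)
    rw [(kill i).map_smul] at this
    exact this

/-- adapted functionals -/
noncomputable def XX (φ : Fin d → ℝ) (i : Fin d) : (Fin d → ℝ) →ₗ[ℝ] ℝ := P1 φ - φ i • P2

noncomputable def ZZ (Z : (Fin d → ℝ) →ₗ[ℝ] ℝ) (i : Fin d) : (Fin d → ℝ) →ₗ[ℝ] ℝ :=
  Z - Z (Pi.single i 1) • P2

lemma XX_apply (φ : Fin d → ℝ) (i : Fin d) (x : Fin d → ℝ) :
    XX φ i x = Phi1 φ x - φ i * Phi2 x := rfl

lemma ZZ_apply (Z : (Fin d → ℝ) →ₗ[ℝ] ℝ) (i : Fin d) (x : Fin d → ℝ) :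
    ZZ Z i x = Z x - Z (Pi.single i 1) * Phi2 x := rfl

lemma pw_comp {α β : Type*} (g : α → β) (x1 x2 x3 x4 : ℝ → α) (s : ℝ) :
    g (pw x1 x2 x3 x4 s) =
      pw (fun t => g (x1 t)) (fun t => g (x2 t)) (fun t => g (x3 t)) (fun t => g (x4 t)) s := by
  unfold pw
  split_ifs <;> rfl

lemma pw_map (F : (Fin d → ℝ) →ₗ[ℝ] ℝ) (A B : ℝ → Fin d → ℝ) (w : Fin d → ℝ) (L M σ : ℝ) :
    (fun s => F (path A B w L M σ s)) =
      pw (fun t => F (B (σ + t * (M - σ))) - L * F w)
        (fun t => (2 - t) * (F (B M) - L * F w) + (t - 1) * F w)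
        (fun t => (3 - t) * F w + (t - 2) * (F (A (-M)) - L * F w))
        (fun t => F (A ((t - 4) * M)) - L * F w) := by
  funext s
  unfold path
  refine (pw_comp (fun x => F x) _ _ _ _ s).trans ?_
  simp only [map_sub, map_add, map_smul, smul_eq_mul]

lemma pw_congr {α : Type*} {x1 x2 x3 x4 y1 y2 y3 y4 : ℝ → α} (h1 : ∀ t, x1 t = y1 t)
    (h2 : ∀ t, x2 t = y2 t) (h3 : ∀ t, x3 t = y3 t) (h4 : ∀ t, x4 t = y4 t) :
    pw x1 x2 x3 x4 = pw y1 y2 y3 y4 := by
  rw [funext h1, funext h2, funext h3, funext h4]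

lemma lip (F : (Fin d → ℝ) →ₗ[ℝ] ℝ) (A : ℝ → Fin d → ℝ) (C : ℝ)
    (hA : ∀ s t j, |A s j - A t j| ≤ C * |s - t|) (s t : ℝ) :
    |F (A s) - F (A t)| ≤ ((∑ j, |F (Pi.single j 1)|) * C) * |s - t| := by
  have h : F (A s) - F (A t) = ∑ j, (A s j - A t j) * F (Pi.single j 1) := by
    rw [← map_sub, LinearMap.pi_apply_eq_sum_univ F (A s - A t)]
    refine Finset.sum_congr rfl fun i _ => ?_
    have h2 : (fun j => if i = j then (1 : ℝ) else 0) = Pi.single i 1 := by
      ext j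
      simp [Pi.single_apply, eq_comm]
    rw [h2, smul_eq_mul, Pi.sub_apply]
  rw [h, mul_assoc, Finset.sum_mul]
  refine (Finset.abs_sum_le_sum_abs _ _).trans (Finset.sum_le_sum fun j _ => ?_)
  rw [abs_mul, mul_comm]
  exact mul_le_mul_of_nonneg_left (hA s t j) (abs_nonneg _)

end LowAux

open LowAux

theorem low (hgad : S_GAD) (hlin : S_LIN) (hradc : S_RADC) (hradg : S_RADG) (hcont : S_CONT)
    (hball : S_BALL) (hsph : S_SPH) : S_LOW := by
  intro k d hk hkd
  obtain ⟨n, rfl⟩ : ∃ n, k = n + 1 := ⟨k - 1, by omega⟩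
  obtain ⟨φ, q, A, B, C, hG⟩ := hgad d (by omega)
  obtain ⟨T, w, Z, hTinj, hT, hw1, hw2, hwZ⟩ := hlin d n φ (by omega)
  have hG' := hG
  obtain ⟨hq, hqφ, hA, hB, hAB, hC, hAL, hBL⟩ := hG
  set M : ℝ := (∑ i, φ i) + 1 with hM
  have hφ0 : ∀ i, 0 < φ i := fun i => lt_of_lt_of_le hq (hqφ i)
  have hφM : ∀ i, φ i < M := by
    intro i
    have := Finset.single_le_sum (f := φ) (fun j _ => (hφ0 j).le) (Finset.mem_univ i)
    linarith
  have hqM : q < M := by
    have i : Fin d := ⟨0, by omega⟩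
    exact lt_of_le_of_lt (hqφ i) (hφM i)
  have hM0 : 0 < M := hq.trans hqM
  set D : ℝ := ∑ j, |Z (Pi.single j 1)| with hD
  have hD0 : 0 ≤ D := Finset.sum_nonneg fun j _ => abs_nonneg _
  have hDj : ∀ j, |Z (Pi.single j 1)| ≤ D := fun j =>
    Finset.single_le_sum (f := fun j => |Z (Pi.single j 1)|) (fun j _ => abs_nonneg _)
      (Finset.mem_univ j)
  have hC' : 0 ≤ D * C := mul_nonneg hD0 hC
  have ha : ∀ s t, |Z (A s) - Z (A t)| ≤ (D * C) * |s - t| := lip Z A C hAL
  have hb : ∀ s t, |Z (B s) - Z (B t)| ≤ (D * C) * |s - t| := lip Z B C hBL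
  set K : ℝ := |Z (A 0)| + |Z (B 0)| + D * C * M + D with hK
  have haK : ∀ t, |t| ≤ M → |Z (A t)| ≤ K := by
    intro t ht
    have h1 := ha t 0
    rw [sub_zero] at h1
    have h2 : D * C * |t| ≤ D * C * M := mul_le_mul_of_nonneg_left ht hC'
    have h3 : |Z (A t)| ≤ |Z (A t) - Z (A 0)| + |Z (A 0)| := by
      have := abs_add_le (Z (A t) - Z (A 0)) (Z (A 0))
      simpa using this
    have h4 := abs_nonneg (Z (B 0))
    linarith
  have hbK' : ∀ t, |t| ≤ M → |Z (B t)| ≤ |Z (B 0)| + D * C * M := by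
    intro t ht
    have h1 := hb t 0
    rw [sub_zero] at h1
    have h2 : D * C * |t| ≤ D * C * M := mul_le_mul_of_nonneg_left ht hC'
    have h3 : |Z (B t)| ≤ |Z (B t) - Z (B 0)| + |Z (B 0)| := by
      have := abs_add_le (Z (B t) - Z (B 0)) (Z (B 0))
      simpa using this
    linarith
  have hbK : ∀ t, |t| ≤ M → |Z (B t)| ≤ K := by
    intro t ht
    have h1 := hbK' t ht
    have h4 := abs_nonneg (Z (A 0))
    linarith
  have hbiK : ∀ i, ∀ t, |t| ≤ M → |Z (B t) - Z (Pi.single i 1)| ≤ K := by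
    intro i t ht
    have h1 := hbK' t ht
    have h2 := hDj i
    have h3 : |Z (B t) - Z (Pi.single i 1)| ≤ |Z (B t)| + |Z (Pi.single i 1)| := abs_sub _ _
    have h4 := abs_nonneg (Z (A 0))
    linarith
  set L : ℝ := K + M * (D * C) + 1 with hL
  have hKL : K + M * (D * C) < L := by linarith
  obtain ⟨hcc, hc04, hsh⟩ := hcont d φ q A B C hG' w L M hφM
  have hPhi1A : ∀ t, Phi1 φ (A t) = t := fun t => (hA t).1
  have hPhi2A : ∀ t, Phi2 (A t) = 0 := fun t => (hA t).2
  have hPhi1B : ∀ t, Phi1 φ (B t) = t := fun t => (hB t).1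
  have hPhi2B : ∀ t, Phi2 (B t) = 1 := fun t => (hB t).2
  refine ⟨Join T (path A B w L M q '' Icc 0 4), ?_, ?_⟩
  · obtain ⟨g1, g2⟩ := hradg (fun t => Z (A t)) (fun t => Z (B t)) (D * C) K L M q hC' hq hqM ha hb
      haK hbK hKL (fun s => P1 φ (path A B w L M q s)) (fun s => P2 (path A B w L M q s))
      (fun s => Z (path A B w L M q s))
      (by
        rw [pw_map]
        refine pw_congr ?_ ?_ ?_ ?_ <;> intro t <;>
          simp only [P1_apply, hPhi1A, hPhi1B, hw1] <;> ring)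
      (by
        rw [pw_map]
        refine pw_congr ?_ ?_ ?_ ?_ <;> intro t <;>
          simp only [P2_apply, hPhi2A, hPhi2B, hw2] <;> ring)
      (by
        rw [pw_map]
        refine pw_congr ?_ ?_ ?_ ?_ <;> intro t <;>
          simp only [hwZ] <;> ring)
    exact hball d n T (P1 φ) P2 Z (path A B w L M q) hTinj (fun v => hT v) (hcc q) g1 g2
  · intro i
    rw [shadow_join, hsh i]
    have hX0 : (XX φ i) (Pi.single i 1) = 0 := by
      rw [XX_apply, P1_single, P2_single]; ring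
    have hZ0 : (ZZ Z i) (Pi.single i 1) = 0 := by
      rw [ZZ_apply, P2_single]; ring
    have hXk := kill_inv (XX φ i) i hX0
    have hZk := kill_inv (ZZ Z i) i hZ0
    obtain ⟨g1, g2⟩ := hradc (fun t => Z (A t)) (fun t => Z (B t) - Z (Pi.single i 1)) (D * C) K L M
      (φ i) hC' (hφ0 i) (hφM i) ha (fun s t => by
        have := hb s t
        rwa [sub_sub_sub_cancel_right]) haK (hbiK i) hKL
      (fun s => (XX φ i) (path A B w L M (φ i) s))
      (fun s => (ZZ Z i) (path A B w L M (φ i) s))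
      (by
        rw [pw_map]
        refine pw_congr ?_ ?_ ?_ ?_ <;> intro t <;>
          simp only [XX_apply, hPhi1A, hPhi1B, hPhi2A, hPhi2B, hw1, hw2] <;> ring)
      (by
        rw [pw_map]
        refine pw_congr ?_ ?_ ?_ ?_ <;> intro t <;>
          simp only [ZZ_apply, hPhi2A, hPhi2B, hw2, hwZ] <;> ring)
    have hinj : Function.Injective ((kill i).comp T) := by
      rw [← LinearMap.ker_eq_bot, LinearMap.ker_eq_bot']
      intro v hv
      have h1 : T v - (T v) i • Pi.single i (1 : ℝ) = 0 := by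
        rw [← kill_eq]; exact hv
      have h2 : P2 (T v - (T v) i • Pi.single i (1 : ℝ)) = 0 := by rw [h1, map_zero]
      rw [map_sub, map_smul, P2_apply, P2_apply, (hT v).2.1, P2_single] at h2
      have h3 : (T v) i = 0 := by simpa using h2
      rw [h3, zero_smul, sub_zero] at h1
      exact (LinearMap.ker_eq_bot'.1 (LinearMap.ker_eq_bot.2 hTinj)) v h1
    refine hsph d n ((kill i).comp T) (XX φ i) (ZZ Z i)
      (fun t => Function.update (path A B w L M (φ i) t) i 0) hinj ?_ ?_ (hc04 i) ?_ ?_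
    · intro v
      rw [LinearMap.comp_apply, kill_apply, hXk, hZk]
      constructor
      · rw [XX_apply, (hT v).1, (hT v).2.1]; ring
      · rw [ZZ_apply, (hT v).2.1, (hT v).2.2]; ring
    · exact (hcc (φ i)).update i continuous_const
    · intro s hs
      rw [hXk, hZk]
      exact g1 s hs
    · intro s hs t ht l hl h1 h2
      rw [hXk, hXk] at h1
      rw [hZk, hZk] at h2
      exact g2 s hs t ht l hl h1 h2

end Pool.Agent.R274.SH
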