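import Pool.Agent.R274.SH.Defs
import Pool.Agent.Helper514.IoD

/-!
A sphere of dimension `k ≥ 1` does not embed in `ℝ^m` for `m ≤ k`.
-/

set_option autoImplicit false

open Set Metric Topology

namespace Pool.Agent.R274.SH

namespace Noemb

/-- the inclusion of `ℝ^m` in `ℝ^k` -/
noncomputable def inc (k m : ℕ) (x : EuclideanSpace ℝ (Fin m)) : EuclideanSpace ℝ (Fin k) :=
  WithLp.toLp 2 (fun i : Fin k => if h : i.1 < m then x ⟨i.1, h⟩ else 0)

theorem inc_cont (k m : ℕ) : Continuous (inc k m) := by
  unfold inc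
  refine (PiLp.continuous_toLp 2 _).comp (continuous_pi fun i => ?_)
  by_cases h : i.1 < m
  · simp only [h, dite_true]
    fun_prop
  · simp only [h, dite_false]
    exact continuous_const

theorem inc_inj {k m : ℕ} (hkm : m ≤ k) : Function.Injective (inc k m) := by
  intro x y hxy
  ext i
  have h := congrArg (fun z : EuclideanSpace ℝ (Fin k) => z ⟨i.1, i.2.trans_le hkm⟩) hxy
  simpa [inc] using h

theorem main (k : ℕ) (hk : 1 ≤ k)
    (g : sphere (0 : EuclideanSpace ℝ (Fin (k + 1))) 1 → EuclideanSpace ℝ (Fin k))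
    (hg : Continuous g) (hi : Function.Injective g) : False := by
  have : Fact (Module.finrank ℝ (EuclideanSpace ℝ (Fin (k + 1))) = k + 1) :=
    ⟨finrank_euclideanSpace_fin⟩
  have hopen : IsOpen (range g) := by
    rw [isOpen_iff_mem_nhds]
    rintro _ ⟨p, rfl⟩
    set e := stereographic' (E := EuclideanSpace ℝ (Fin (k + 1))) k (-p) with he
    have hp : p ∈ e.source := by
      rw [he, stereographic'_source]
      exact ne_neg_of_mem_unit_sphere ℝ p
    have ht : e.target = univ := by rw [he, stereographic'_target]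
    have hc : Continuous e.symm := by
      rw [← continuousOn_univ, ← ht]
      exact e.continuousOn_symm
    have hj : Function.Injective e.symm := by
      rw [← injOn_univ, ← ht]
      exact e.symm.injOn
    have h1 := Pool.Agent.Helper514.IoD.image_mem_nhds (fun x => g (e.symm x)) (e p) 1 one_pos
      (hg.comp hc).continuousOn ((hi.comp hj).injOn)
    have h2 : e.symm (e p) = p := e.left_inv hp
    simp only [h2] at h1
    refine Filter.mem_of_superset h1 ?_
    rintro _ ⟨x, _, rfl⟩
    exact ⟨_, rfl⟩
  have hcomp : IsCompact (range g) := isCompact_range hg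
  have hne : (range g).Nonempty := by
    have h : (sphere (0 : EuclideanSpace ℝ (Fin (k + 1))) 1).Nonempty :=
      NormedSpace.sphere_nonempty.2 zero_le_one
    obtain ⟨p, hp⟩ := h
    exact ⟨_, ⟨p, hp⟩, rfl⟩
  have huniv : range g = univ := IsClopen.eq_univ ⟨hcomp.isClosed, hopen⟩ hne
  have : Nonempty (Fin k) := ⟨⟨0, hk⟩⟩
  have hnc : NoncompactSpace (EuclideanSpace ℝ (Fin k)) := by
    have : Nontrivial (EuclideanSpace ℝ (Fin k)) := by
      infer_instance
    exact NormedSpace.noncompactSpace ℝ _
  rw [huniv] at hcomp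
  exact noncompact_univ _ hcomp

end Noemb

/-- NOEMB -/
theorem noemb : S_NOEMB := by
  rintro k m hk hkm ⟨f, hf, hi⟩
  exact Noemb.main k hk (fun x => Noemb.inc k m (f x)) ((Noemb.inc_cont k m).comp hf)
    ((Noemb.inc_inj hkm).comp hi)

end Pool.Agent.R274.SH
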