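import Mathlib
import Pool.Agent.R274.SH.Defs

set_option autoImplicit false

/-!
RADC: radial injectivity in the plane.
-/

namespace Pool.Agent.R274.SH

open Set Metric

namespace RADC

theorem pw1 {α : Type*} {x1 x2 x3 x4 : ℝ → α} {t : ℝ} (h : t ≤ 1) :
    pw x1 x2 x3 x4 t = x1 t := by
  unfold pw; rw [if_pos h]

theorem pw2 {α : Type*} {x1 x2 x3 x4 : ℝ → α} {t : ℝ} (h : 1 < t) (h2 : t ≤ 2) :
    pw x1 x2 x3 x4 t = x2 t := by
  unfold pw; rw [if_neg (not_le.mpr h), if_pos h2]

theorem pw3 {α : Type*} {x1 x2 x3 x4 : ℝ → α} {t : ℝ} (h : 2 < t) (h2 : t ≤ 3) :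
    pw x1 x2 x3 x4 t = x3 t := by
  unfold pw; rw [if_neg (by linarith), if_neg (not_le.mpr h), if_pos h2]

theorem pw4 {α : Type*} {x1 x2 x3 x4 : ℝ → α} {t : ℝ} (h : 3 < t) :
    pw x1 x2 x3 x4 t = x4 t := by
  unfold pw; rw [if_neg (by linarith), if_neg (by linarith), if_neg (not_le.mpr h)]

/-- the basic inequality: `x β(x') - x' β(x) ≥ (x' - x)(L - K - x C)` -/
theorem basic {p q x x' C K L : ℝ} (hx : 0 ≤ x) (hxx : x ≤ x')
    (hl : |q - p| ≤ C * (x' - x)) (hp : |p| ≤ K) :
    (x' - x) * (L - K - x * C) ≤ x * (q - L) - x' * (p - L) := by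
  have h1 := (abs_le.mp hl).1
  have h2 := (abs_le.mp hp).2
  nlinarith [mul_nonneg hx (by linarith : (0:ℝ) ≤ q - p + C * (x' - x)),
    mul_nonneg (by linarith : (0:ℝ) ≤ x' - x) (by linarith : (0:ℝ) ≤ K - p)]

end RADC

open RADC in
theorem radc : S_RADC := by
  intro a b C K L M f hC hf hfM ha hb haK hbK hL X Z hX hZ
  have hM : 0 < M := hf.trans hfM
  have hMf : 0 < M - f := by linarith
  -- values
  have X1 : ∀ t, t ≤ 1 → X t = t * (M - f) := fun t h => by rw [hX, pw1 h]
  have X2 : ∀ t, 1 < t → t ≤ 2 → X t = (2 - t) * (M - f) := fun t h h' => by rw [hX, pw2 h h']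
  have X3 : ∀ t, 2 < t → t ≤ 3 → X t = (t - 2) * (-M) := fun t h h' => by rw [hX, pw3 h h']
  have X4 : ∀ t, 3 < t → X t = (t - 4) * M := fun t h => by rw [hX, pw4 h]
  have Z1 : ∀ t, t ≤ 1 → Z t = b (f + t * (M - f)) - L := fun t h => by rw [hZ, pw1 h]
  have Z2 : ∀ t, 1 < t → t ≤ 2 → Z t = (2 - t) * (b M - L) + (t - 1) :=
    fun t h h' => by rw [hZ, pw2 h h']
  have Z3 : ∀ t, 2 < t → t ≤ 3 → Z t = (3 - t) + (t - 2) * (a (-M) - L) :=
    fun t h h' => by rw [hZ, pw3 h h']
  have Z4 : ∀ t, 3 < t → Z t = a ((t - 4) * M) - L := fun t h => by rw [hZ, pw4 h]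
  -- signs of X
  have hX0 : X 0 = 0 := by rw [X1 0 (by norm_num)]; ring
  have hX2 : X 2 = 0 := by rw [X2 2 (by norm_num) le_rfl]; ring
  have hZ2 : Z 2 = 1 := by rw [Z2 2 (by norm_num) le_rfl]; ring
  have hKL : K < L := by nlinarith [mul_nonneg hM.le hC]
  have hZ0 : Z 0 < 0 := by
    rw [Z1 0 (by norm_num)]
    have := (abs_le.mp (hbK (f + 0 * (M - f)) (by
      rw [abs_le]; constructor <;> nlinarith))).2
    linarith
  have hpos : ∀ t, 0 < t → t < 2 → 0 < X t := by
    intro t h h'
    rcases le_or_gt t 1 with h1 | h1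
    · rw [X1 t h1]; exact mul_pos h hMf
    · rw [X2 t h1 h'.le]; exact mul_pos (by linarith) hMf
  have hneg : ∀ t, 2 < t → t < 4 → X t < 0 := by
    intro t h h'
    rcases le_or_gt t 3 with h1 | h1
    · rw [X3 t h h1]; nlinarith
    · rw [X4 t h1]; nlinarith
  -- cross products, first region
  have keyb : ∀ u v : ℝ, 0 ≤ u → u ≤ v → v ≤ 1 →
      (v - u) * (M - f) * (L - K - u * (M - f) * C) ≤
        u * (M - f) * (b (f + v * (M - f)) - L) - v * (M - f) * (b (f + u * (M - f)) - L) := by
    intro u v hu huv hv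
    have := basic (p := b (f + u * (M - f))) (q := b (f + v * (M - f))) (x := u * (M - f))
      (x' := v * (M - f)) (C := C) (K := K) (L := L) (mul_nonneg hu hMf.le)
      (mul_le_mul_of_nonneg_right huv hMf.le)
      (by
        refine (hb _ _).trans (le_of_eq ?_)
        rw [abs_of_nonneg (by nlinarith)]; ring)
      (hbK _ (by
        rw [abs_le]
        have h1 : u * (M - f) ≤ 1 * (M - f) := mul_le_mul_of_nonneg_right (huv.trans hv) hMf.le
        have h2 : 0 ≤ u * (M - f) := mul_nonneg hu hMf.le
        constructor <;> linarith))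
    calc _ = (v * (M - f) - u * (M - f)) * (L - K - u * (M - f) * C) := by ring
      _ ≤ _ := this
  have gapb : ∀ u : ℝ, 0 ≤ u → u ≤ 1 → 0 < L - K - u * (M - f) * C := by
    intro u hu hu1
    have h1 : u * (M - f) ≤ M := by nlinarith
    have h2 : u * (M - f) * C ≤ M * C := mul_le_mul_of_nonneg_right h1 hC
    linarith
  have keya : ∀ u v : ℝ, 0 ≤ u → u ≤ v → v ≤ 1 →
      (v - u) * M * (L - K - u * M * C) ≤
        u * M * (a (-(v * M)) - L) - v * M * (a (-(u * M)) - L) := by
    intro u v hu huv hv
    have := basic (p := a (-(u * M))) (q := a (-(v * M))) (x := u * M)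
      (x' := v * M) (C := C) (K := K) (L := L) (mul_nonneg hu hM.le)
      (mul_le_mul_of_nonneg_right huv hM.le)
      (by
        refine (ha _ _).trans (le_of_eq ?_)
        rw [abs_of_nonpos (by nlinarith)]; ring)
      (haK _ (by
        rw [abs_neg, abs_of_nonneg (mul_nonneg hu hM.le)]
        nlinarith))
    calc _ = (v * M - u * M) * (L - K - u * M * C) := by ring
      _ ≤ _ := this
  have gapa : ∀ u : ℝ, 0 ≤ u → u ≤ 1 → 0 < L - K - u * M * C := by
    intro u hu hu1
    have h1 : u * M ≤ M := by nlinarith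
    have h2 : u * M * C ≤ M * C := mul_le_mul_of_nonneg_right h1 hC
    linarith
  have D1 : ∀ s t, 0 < s → s < t → t < 2 → 0 < X s * Z t - X t * Z s := by
    intro s t hs hst ht
    rcases le_or_gt t 1 with h1 | h1
    · rw [X1 s (by linarith), X1 t h1, Z1 s (by linarith), Z1 t h1]
      have k1 := keyb s t hs.le hst.le h1
      have k2 := gapb s hs.le (by linarith)
      have k3 : 0 < (t - s) * (M - f) * (L - K - s * (M - f) * C) :=
        mul_pos (mul_pos (by linarith) hMf) k2
      linarith
    · rcases le_or_gt s 1 with h2 | h2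
      · rw [X1 s h2, X2 t h1 ht.le, Z1 s h2, Z2 t h1 ht.le]
        have k1 := keyb s 1 hs.le h2 le_rfl
        have k2 := gapb s hs.le h2
        have k3 : 0 ≤ (1 - s) * (M - f) * (L - K - s * (M - f) * C) :=
          mul_nonneg (mul_nonneg (by linarith) hMf.le) k2.le
        have k4 : f + 1 * (M - f) = M := by ring
        rw [k4] at k1
        have k5 : 0 ≤ s * (M - f) * (b M - L) - 1 * (M - f) * (b (f + s * (M - f)) - L) :=
          k3.trans k1
        have k6 := mul_nonneg (by linarith : (0:ℝ) ≤ 2 - t) k5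
        have k7 : 0 < s * (M - f) * (t - 1) := mul_pos (mul_pos hs hMf) (by linarith)
        calc (0:ℝ) < (2 - t) * (s * (M - f) * (b M - L) -
              1 * (M - f) * (b (f + s * (M - f)) - L)) + s * (M - f) * (t - 1) := by linarith
          _ = _ := by ring
      · rw [X2 s h2 (by linarith), X2 t h1 ht.le, Z2 s h2 (by linarith), Z2 t h1 ht.le]
        have : 0 < (M - f) * (t - s) := mul_pos hMf (by linarith)
        calc (0:ℝ) < (M - f) * (t - s) := this
          _ = _ := by ring
  have D2 : ∀ s t, 2 < s → s < t → t < 4 → 0 < X s * Z t - X t * Z s := by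
    intro s t hs hst ht
    rcases le_or_gt t 3 with h1 | h1
    · rw [X3 s hs (by linarith), X3 t (by linarith) h1, Z3 s hs (by linarith),
        Z3 t (by linarith) h1]
      have : 0 < M * (t - s) := mul_pos hM (by linarith)
      calc (0:ℝ) < M * (t - s) := this
        _ = _ := by ring
    · rcases le_or_gt s 3 with h2 | h2
      · rw [X3 s hs h2, X4 t h1, Z3 s hs h2, Z4 t h1]
        have k1 := keya (4 - t) 1 (by linarith) (by linarith) le_rfl
        have k2 := gapa (4 - t) (by linarith) (by linarith)
        have k3 : 0 < (1 - (4 - t)) * M * (L - K - (4 - t) * M * C) :=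
          mul_pos (mul_pos (by linarith) hM) k2
        have k4 : -(1 * M) = -M := by ring
        have k5 : -((4 - t) * M) = (t - 4) * M := by ring
        rw [k4, k5] at k1
        have k6 := mul_pos (by linarith : (0:ℝ) < s - 2) (k3.trans_le k1)
        have k7 : 0 ≤ M * ((4 - t) * (3 - s)) :=
          mul_nonneg hM.le (mul_nonneg (by linarith) (by linarith))
        calc (0:ℝ) < (s - 2) * ((4 - t) * M * (a (-M) - L) - 1 * M * (a ((t - 4) * M) - L)) +
              M * ((4 - t) * (3 - s)) := by linarith
          _ = _ := by ring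
      · rw [X4 s h2, X4 t h1, Z4 s h2, Z4 t h1]
        have k1 := keya (4 - t) (4 - s) (by linarith) (by linarith) (by linarith)
        have k2 := gapa (4 - t) (by linarith) (by linarith)
        have k3 : 0 < ((4 - s) - (4 - t)) * M * (L - K - (4 - t) * M * C) :=
          mul_pos (mul_pos (by linarith) hM) k2
        have k4 : -((4 - s) * M) = (s - 4) * M := by ring
        have k5 : -((4 - t) * M) = (t - 4) * M := by ring
        rw [k4, k5] at k1
        calc (0:ℝ) < (4 - t) * M * (a ((s - 4) * M) - L) - (4 - s) * M * (a ((t - 4) * M) - L) :=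
              k3.trans_le k1
          _ = _ := by ring
  refine ⟨?_, ?_⟩
  · intro s hs ⟨h1, h2⟩
    rcases lt_trichotomy s 2 with h | h | h
    · rcases eq_or_lt_of_le hs.1 with h0 | h0
      · rw [← h0] at h2; linarith
      · exact (hpos s h0 h).ne' h1
    · rw [h, hZ2] at h2; norm_num at h2
    · exact (hneg s h hs.2).ne h1
  · intro s hs t ht l hl h1 h2
    by_contra hne
    have cross : X s * Z t - X t * Z s = 0 := by rw [h1, h2]; ring
    have cross' : X t * Z s - X s * Z t = 0 := by rw [h1, h2]; ring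
    -- sign analysis
    rcases lt_trichotomy s 2 with h | h | h
    · rcases eq_or_lt_of_le hs.1 with h0 | h0
      · -- s = 0
        have hXs : X s = 0 := by rw [← h0]; exact hX0
        have hXt : X t = 0 := by
          rw [hXs] at h1
          rcases mul_eq_zero.mp h1.symm with h | h
          · exact absurd h hl.ne'
          · exact h
        rcases lt_trichotomy t 2 with g | g | g
        · rcases eq_or_lt_of_le ht.1 with g0 | g0
          · exact hne (h0.symm.trans g0)
          · exact (hpos t g0 g).ne' hXt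
        · rw [← h0, g, hZ2] at h2
          linarith
        · exact (hneg t g ht.2).ne hXt
      · have hXs := hpos s h0 h
        have hXt : 0 < X t := by
          rw [h1] at hXs
          exact (mul_pos_iff_of_pos_left hl).mp hXs
        have ht2 : 0 < t ∧ t < 2 := by
          rcases lt_trichotomy t 2 with g | g | g
          · rcases eq_or_lt_of_le ht.1 with g0 | g0
            · rw [← g0, hX0] at hXt; exact absurd hXt (lt_irrefl _)
            · exact ⟨g0, g⟩
          · rw [g, hX2] at hXt; exact absurd hXt (lt_irrefl _)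
          · exact absurd (hneg t g ht.2) (not_lt.mpr hXt.le)
        rcases lt_or_gt_of_ne hne with g | g
        · exact (D1 s t h0 g ht2.2).ne' cross
        · exact (D1 t s ht2.1 g h).ne' cross'
    · -- s = 2
      have hXs : X s = 0 := by rw [h]; exact hX2
      have hXt : X t = 0 := by
        rw [hXs] at h1
        rcases mul_eq_zero.mp h1.symm with h | h
        · exact absurd h hl.ne'
        · exact h
      rcases lt_trichotomy t 2 with g | g | g
      · rcases eq_or_lt_of_le ht.1 with g0 | g0
        · rw [← g0, h, hZ2] at h2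
          nlinarith
        · exact (hpos t g0 g).ne' hXt
      · exact hne (h.trans g.symm)
      · exact (hneg t g ht.2).ne hXt
    · have hXs := hneg s h hs.2
      have hXt : X t < 0 := by
        rw [h1] at hXs
        by_contra hcon
        exact absurd (mul_nonneg hl.le (not_lt.mp hcon)) (not_le.mpr hXs)
      have ht2 : 2 < t := by
        rcases lt_trichotomy t 2 with g | g | g
        · rcases eq_or_lt_of_le ht.1 with g0 | g0
          · rw [← g0, hX0] at hXt; exact absurd hXt (lt_irrefl _)
          · exact absurd (hpos t g0 g) (not_lt.mpr hXt.le)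
        · rw [g, hX2] at hXt; exact absurd hXt (lt_irrefl _)
        · exact g
      rcases lt_or_gt_of_ne hne with g | g
      · exact (D2 s t h g ht.2).ne' cross
      · exact (D2 t s ht2 g hs.2).ne' cross'

end Pool.Agent.R274.SH
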