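import Pool.Agent.R274.SH.Defs

set_option autoImplicit false

/-! Piece RADG: radial injectivity in space. -/

namespace Pool.Agent.R274.SH

open Set Metric

namespace RadgAux

lemma pw1 {x1 x2 x3 x4 : ℝ → ℝ} {t : ℝ} (h : t ≤ 1) : pw x1 x2 x3 x4 t = x1 t := by
  simp [pw, h]

lemma pw2 {x1 x2 x3 x4 : ℝ → ℝ} {t : ℝ} (h : 1 < t) (h2 : t ≤ 2) :
    pw x1 x2 x3 x4 t = x2 t := by
  simp [pw, not_le.2 h, h2]

lemma pw3 {x1 x2 x3 x4 : ℝ → ℝ} {t : ℝ} (h : 2 < t) (h2 : t ≤ 3) :
    pw x1 x2 x3 x4 t = x3 t := by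
  have h1 : ¬ t ≤ 1 := by linarith
  simp [pw, h1, not_le.2 h, h2]

lemma pw4 {x1 x2 x3 x4 : ℝ → ℝ} {t : ℝ} (h : 3 < t) :
    pw x1 x2 x3 x4 t = x4 t := by
  have h1 : ¬ t ≤ 1 := by linarith
  have h2 : ¬ t ≤ 2 := by linarith
  simp [pw, h1, h2, not_le.2 h]

lemma region {t : ℝ} : t ≤ 1 ∨ (1 < t ∧ t ≤ 2) ∨ (2 < t ∧ t ≤ 3) ∨ 3 < t := by
  rcases le_or_gt t 1 with h | h
  · exact Or.inl h
  · rcases le_or_gt t 2 with h2 | h2
    · exact Or.inr (Or.inl ⟨h, h2⟩)
    · rcases le_or_gt t 3 with h3 | h3
      · exact Or.inr (Or.inr (Or.inl ⟨h2, h3⟩))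
      · exact Or.inr (Or.inr (Or.inr h3))

end RadgAux

open RadgAux in
theorem radg : S_RADG := by
  intro a b C K L M q hC hq hqM hLa hLb hKa hKb hL X Y Z hX hY hZ
  have hM : 0 < M := hq.trans hqM
  have hMC : 0 ≤ M * C := mul_nonneg hM.le hC
  have haK : ∀ u : ℝ, 0 ≤ u → u ≤ 1 → a (-(u * M)) ≤ K := by
    intro u hu hu1
    refine (le_abs_self _).trans (hKa _ ?_)
    rw [abs_neg, abs_of_nonneg (mul_nonneg hu hM.le)]
    nlinarith
  have X1 : ∀ t : ℝ, t ≤ 1 → X t = q + t * (M - q) := fun t h => by rw [hX, pw1 h]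
  have X2 : ∀ t : ℝ, 1 < t → t ≤ 2 → X t = (2 - t) * M := fun t h h2 => by rw [hX, pw2 h h2]
  have X3 : ∀ t : ℝ, 2 < t → t ≤ 3 → X t = (t - 2) * (-M) := fun t h h2 => by rw [hX, pw3 h h2]
  have X4 : ∀ t : ℝ, 3 < t → X t = (t - 4) * M := fun t h => by rw [hX, pw4 h]
  have Y1 : ∀ t : ℝ, t ≤ 1 → Y t = 1 := fun t h => by rw [hY, pw1 h]
  have Y2 : ∀ t : ℝ, 1 < t → t ≤ 2 → Y t = 2 - t := fun t h h2 => by rw [hY, pw2 h h2]
  have Y3 : ∀ t : ℝ, 2 < t → t ≤ 3 → Y t = 0 := fun t h h2 => by rw [hY, pw3 h h2]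
  have Y4 : ∀ t : ℝ, 3 < t → Y t = 0 := fun t h => by rw [hY, pw4 h]
  have Z1 : ∀ t : ℝ, t ≤ 1 → Z t = b (q + t * (M - q)) - L := fun t h => by rw [hZ, pw1 h]
  have Z2 : ∀ t : ℝ, 1 < t → t ≤ 2 → Z t = (2 - t) * (b M - L) + (t - 1) :=
    fun t h h2 => by rw [hZ, pw2 h h2]
  have Z3 : ∀ t : ℝ, 2 < t → t ≤ 3 → Z t = (3 - t) + (t - 2) * (a (-M) - L) :=
    fun t h h2 => by rw [hZ, pw3 h h2]
  have Z4 : ∀ t : ℝ, 3 < t → Z t = a (-((4 - t) * M)) - L := fun t h => by
    rw [hZ, pw4 h]; congr 2; ring
  have ha0 : a 0 - L < 0 := by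
    have := haK 0 le_rfl zero_le_one
    simp at this
    linarith
  have key : ∀ s ∈ Icc (0 : ℝ) 4, ∀ t ∈ Icc (0 : ℝ) 4, ∀ l : ℝ, 0 < l →
      X s = l * X t → Y s = l * Y t → Z s = l * Z t → s < t → False := by
    rintro s ⟨hs0, hs4⟩ t ⟨ht0, ht4⟩ l hl ex ey ez hst
    rcases region (t := s) with h1 | ⟨h1, h1'⟩ | ⟨h1, h1'⟩ | h1
    · rw [X1 s h1] at ex; rw [Y1 s h1] at ey; rw [Z1 s h1] at ez
      rcases region (t := t) with h2 | ⟨h2, h2'⟩ | ⟨h2, h2'⟩ | h2
      · rw [X1 t h2] at ex; rw [Y1 t h2] at ey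
        have : l = 1 := by linarith
        subst this
        have : (t - s) * (M - q) = 0 := by linarith
        rcases mul_eq_zero.1 this with h | h <;> linarith
      · rw [X2 t h2 h2'] at ex; rw [Y2 t h2 h2'] at ey; rw [Z2 t h2 h2'] at ez
        have e1 : q + s * (M - q) = M := by
          rw [ex, ← mul_assoc, ← ey, one_mul]
        have e2 : (1 - s) * (M - q) = 0 := by linarith
        rw [e1] at ez
        have e3 : l * (t - 1) = 0 := by
          have : l * ((2 - t) * (b M - L) + (t - 1)) = (l * (2 - t)) * (b M - L) + l * (t - 1) := by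
            ring
          rw [this, ← ey] at ez
          linarith
        rcases mul_eq_zero.1 e3 with h | h <;> linarith
      · rw [Y3 t h2 h2'] at ey; linarith
      · rw [Y4 t h2] at ey; linarith
    · rw [X2 s h1 h1'] at ex; rw [Y2 s h1 h1'] at ey; rw [Z2 s h1 h1'] at ez
      rcases region (t := t) with h2 | ⟨h2, h2'⟩ | ⟨h2, h2'⟩ | h2
      · linarith
      · rw [Y2 t h2 h2'] at ey; rw [Z2 t h2 h2'] at ez
        have e3 : s - 1 = l * (t - 1) := by
          have : l * ((2 - t) * (b M - L) + (t - 1)) = (l * (2 - t)) * (b M - L) + l * (t - 1) := by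
            ring
          rw [this, ← ey] at ez
          linarith
        have : l = 1 := by nlinarith
        subst this
        linarith
      · rw [Y3 t h2 h2'] at ey
        rw [X3 t h2 h2'] at ex
        have hs2 : 2 - s = 0 := by linarith
        rw [hs2, zero_mul] at ex
        have : 0 < l * (t - 2) * M := by
          have : 0 < t - 2 := by linarith
          positivity
        nlinarith
      · rw [Y4 t h2] at ey
        rw [X4 t h2] at ex
        rw [Z4 t h2] at ez
        have hs2 : 2 - s = 0 := by linarith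
        rw [hs2, zero_mul] at ex ez
        have ht : t - 4 = 0 := by
          rcases mul_eq_zero.1 ex.symm with h | h
          · linarith
          · rcases mul_eq_zero.1 h with h | h
            · exact h
            · linarith
        have ht' : 4 - t = 0 := by linarith
        rw [ht', zero_mul, neg_zero] at ez
        have : l * (a 0 - L) < 0 := mul_neg_of_pos_of_neg hl ha0
        linarith
    · rw [X3 s h1 h1'] at ex; rw [Z3 s h1 h1'] at ez
      rcases region (t := t) with h2 | ⟨h2, h2'⟩ | ⟨h2, h2'⟩ | h2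
      · linarith
      · linarith
      · rw [X3 t h2 h2'] at ex; rw [Z3 t h2 h2'] at ez
        have e1 : s - 2 = l * (t - 2) := by
          have : ((s - 2) - l * (t - 2)) * M = 0 := by linarith
          rcases mul_eq_zero.1 this with h | h <;> linarith
        have e3 : 3 - s = l * (3 - t) := by
          have : l * ((3 - t) + (t - 2) * (a (-M) - L)) =
            l * (3 - t) + (l * (t - 2)) * (a (-M) - L) := by ring
          rw [this, ← e1] at ez
          linarith
        have : l = 1 := by nlinarith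
        subst this
        linarith
      · rw [X4 t h2] at ex; rw [Z4 t h2] at ez
        have e1 : s - 2 = l * (4 - t) := by
          have : ((s - 2) - l * (4 - t)) * M = 0 := by linarith
          rcases mul_eq_zero.1 this with h | h <;> linarith
        have hu : 0 < 4 - t := by
          have : 0 < l * (4 - t) := by linarith
          exact (pos_iff_pos_of_mul_pos this).1 hl
        have hlip := hLa (-((4 - t) * M)) (-M)
        have habs : |-((4 - t) * M) - -M| = (1 - (4 - t)) * M := by
          rw [show -((4 - t) * M) - -M = (1 - (4 - t)) * M by ring]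
          exact abs_of_nonneg (mul_nonneg (by linarith) hM.le)
        rw [habs] at hlip
        have hlip' := (le_abs_self _).trans hlip
        have haM : a (-M) ≤ K := by
          have := haK 1 zero_le_one le_rfl
          rwa [one_mul] at this
        have e2 : 3 - s = l * (a (-((4 - t) * M)) - L - (4 - t) * (a (-M) - L)) := by
          rw [e1] at ez
          linarith
        have e4 : a (-((4 - t) * M)) - L - (4 - t) * (a (-M) - L) < 0 := by
          have h5 : 0 < 1 - (4 - t) := by linarith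
          have h6 : C * M + (a (-M) - L) < 0 := by linarith [mul_comm C M]
          have h7 := mul_neg_of_pos_of_neg h5 h6
          nlinarith
        have := mul_neg_of_pos_of_neg hl e4
        linarith
    · rw [X4 s h1] at ex; rw [Z4 s h1] at ez
      have h2 : 3 < t := by linarith
      rw [X4 t h2] at ex; rw [Z4 t h2] at ez
      have e1 : 4 - s = l * (4 - t) := by
        have : ((4 - s) - l * (4 - t)) * M = 0 := by linarith
        rcases mul_eq_zero.1 this with h | h <;> linarith
      have hu : 0 < 4 - t := by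
        have : 0 < l * (4 - t) := by linarith
        exact (pos_iff_pos_of_mul_pos this).1 hl
      have hl1 : 0 < l - 1 := by
        by_contra hcon
        have : (l - 1) * (4 - t) ≤ 0 := mul_nonpos_of_nonpos_of_nonneg (by linarith) hu.le
        linarith
      have hlip := hLa (-((4 - t) * M)) (-((4 - s) * M))
      have habs : |-((4 - t) * M) - -((4 - s) * M)| = (t - s) * M := by
        rw [show -((4 - t) * M) - -((4 - s) * M) = (t - s) * M by ring]
        exact abs_of_nonneg (mul_nonneg (by linarith) hM.le)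
      rw [habs] at hlip
      have hlip' := (le_abs_self _).trans hlip
      have hK := haK (4 - t) hu.le (by linarith)
      have e5 : t - s = (l - 1) * (4 - t) := by linarith
      rw [e5] at hlip'
      have h7 : (4 - t) * (M * C) ≤ M * C := by nlinarith
      have h8 : 0 < (l - 1) * (L - a (-((4 - t) * M)) - (4 - t) * (M * C)) :=
        mul_pos hl1 (by linarith)
      nlinarith
  constructor
  · rintro s ⟨hs0, hs4⟩ ⟨hx, hy, hz⟩
    rcases region (t := s) with h1 | ⟨h1, h1'⟩ | ⟨h1, h1'⟩ | h1
    · rw [Y1 s h1] at hy; linarith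
    · rw [Y2 s h1 h1'] at hy
      rw [Z2 s h1 h1', hy, zero_mul] at hz
      linarith
    · rw [X3 s h1 h1'] at hx
      rcases mul_eq_zero.1 hx with h | h <;> linarith
    · rw [X4 s h1] at hx
      rcases mul_eq_zero.1 hx with h | h
      · have h' : 4 - s = 0 := by linarith
        rw [Z4 s h1, h', zero_mul, neg_zero] at hz
        linarith
      · linarith
  · intro s hs t ht l hl ex ey ez
    rcases lt_trichotomy s t with h | h | h
    · exact (key s hs t ht l hl ex ey ez h).elim
    · exact h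
    · have hl' : 0 < l⁻¹ := inv_pos.2 hl
      refine (key t ht s hs l⁻¹ hl' ?_ ?_ ?_ h).elim
      · rw [ex, ← mul_assoc, inv_mul_cancel₀ hl.ne', one_mul]
      · rw [ey, ← mul_assoc, inv_mul_cancel₀ hl.ne', one_mul]
      · rw [ez, ← mul_assoc, inv_mul_cancel₀ hl.ne', one_mul]

end Pool.Agent.R274.SH
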