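import Pool.Agent.R274.SH.Defs

set_option autoImplicit false

/-!
MP_537073_gt, piece SHAD: a shadow in `ℝ^d`, `d ≤ k + 1`, is not a `k`-sphere.
-/

namespace Pool.Agent.R274.SH

open Set Metric

theorem ShadAux.zero {d : ℕ} (i : Fin d) (B : Set (Fin d → ℝ)) (x : Fin d → ℝ)
    (hx : x ∈ shadow i B) : x i = 0 := by
  obtain ⟨y, -, rfl⟩ := hx
  exact Function.update_self i 0 y

theorem shad : S_NOEMB → S_SHAD := by
  intro h k d hk hd B i hs
  obtain ⟨e⟩ := hs
  obtain ⟨m, rfl⟩ : ∃ m, d = m + 1 := ⟨d - 1, by have := i.2; omega⟩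
  apply h k m hk (by omega)
  refine ⟨fun s => WithLp.toLp 2 (fun j => (e.symm s).1 (i.succAbove j)), ?_, ?_⟩
  · refine (PiLp.continuous_toLp 2 _).comp ?_
    refine continuous_pi fun j => ?_
    exact (continuous_apply _).comp (continuous_subtype_val.comp e.symm.continuous)
  · intro s t hst
    have h1 : (fun j => (e.symm s).1 (i.succAbove j)) = (fun j => (e.symm t).1 (i.succAbove j)) :=
      WithLp.toLp_injective 2 hst
    have h2 : (e.symm s).1 = (e.symm t).1 := by
      funext j
      rcases Fin.eq_self_or_eq_succAbove i j with rfl | ⟨l, rfl⟩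
      · rw [ShadAux.zero j B _ (e.symm s).2, ShadAux.zero j B _ (e.symm t).2]
      · exact congrFun h1 l
    exact e.symm.injective (Subtype.ext h2)

end Pool.Agent.R274.SH
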