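import Pool.Agent.R274.SH.Defs

set_option autoImplicit false

/-!
# SPH: the join of a closed curve with a sphere is a sphere
-/

namespace Pool.Agent.R274.SH.SphAux

open Set Metric Topology

lemma homeo_of_fibers {K S J : Type*} [TopologicalSpace K] [TopologicalSpace S]
    [TopologicalSpace J] [CompactSpace K] [T2Space S] [T2Space J] (p : K → S) (q : K → J)
    (hp : Continuous p) (hq : Continuous q) (sp : Function.Surjective p)
    (sq : Function.Surjective q) (h : ∀ x y, p x = p y ↔ q x = q y) : Nonempty (J ≃ₜ S) := by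
  let P : C(K, S) := ⟨p, hp⟩
  let Q : C(K, J) := ⟨q, hq⟩
  have h1 : IsQuotientMap P := hp.isClosedMap.isQuotientMap hp sp
  have h2 : IsQuotientMap Q := hq.isClosedMap.isQuotientMap hq sq
  have e1 := h1.homeomorph
  have e2 := h2.homeomorph
  have e : Setoid.ker P = Setoid.ker Q := by
    ext x y
    exact h x y
  rw [e] at e1
  exact ⟨e2.symm.trans e1⟩

/-- the parameter space -/
def KK (n : ℕ) : Set (ℝ × ℝ × (Fin n → ℝ)) :=
  {k | k.1 ∈ Icc (0:ℝ) 4 ∧ 0 ≤ k.2.1 ∧ k.2.1 ^ 2 + ∑ j, (k.2.2 j) ^ 2 = 1}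

lemma KK_compact (n : ℕ) : IsCompact (KK n) := by
  have h1 : IsClosed (KK n) := by
    apply IsClosed.inter
    · exact isClosed_Icc.preimage continuous_fst
    · apply IsClosed.inter
      · exact isClosed_le continuous_const (continuous_fst.comp continuous_snd)
      · apply isClosed_eq _ continuous_const
        fun_prop
  apply (isCompact_Icc (a := ((0:ℝ), (0:ℝ), fun _ : Fin n => (-1:ℝ)))
    (b := ((4:ℝ), (1:ℝ), fun _ : Fin n => (1:ℝ)))).of_isClosed_subset h1
  rintro ⟨s, r, v⟩ ⟨h1, h2, h3⟩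
  dsimp only at h1 h2 h3
  have hs : ∀ j, (v j) ^ 2 ≤ 1 := by
    intro j
    have := Finset.single_le_sum (f := fun j => (v j) ^ 2) (fun i _ => sq_nonneg (v i))
      (Finset.mem_univ j)
    nlinarith [sq_nonneg r]
  have hr : r ^ 2 ≤ 1 := by
    have : 0 ≤ ∑ j, (v j) ^ 2 := Finset.sum_nonneg fun j _ => sq_nonneg _
    linarith
  refine ⟨⟨h1.1, h2, fun j => ?_⟩, ⟨h1.2, ?_, fun j => ?_⟩⟩
  · exact (abs_le.1 (abs_le_one_iff_mul_self_le_one.2 (by nlinarith [hs j]))).1
  · nlinarith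
  · exact (abs_le.1 (abs_le_one_iff_mul_self_le_one.2 (by nlinarith [hs j]))).2

/-- reduced parameter -/
noncomputable def red (s : ℝ) : ℝ := if s = 4 then 0 else s

lemma red_mem {s : ℝ} (hs : s ∈ Icc (0:ℝ) 4) : red s ∈ Ico (0:ℝ) 4 := by
  unfold red
  split_ifs with h
  · exact ⟨le_rfl, by norm_num⟩
  · exact ⟨hs.1, lt_of_le_of_ne hs.2 h⟩

lemma red_c {α : Type*} {c : ℝ → α} (h : c 0 = c 4) (s : ℝ) : c (red s) = c s := by
  unfold red
  split_ifs with h1
  · rw [h1, h]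
  · rfl

/-- the relation -/
def Rel {n : ℕ} (k k' : ℝ × ℝ × (Fin n → ℝ)) : Prop :=
  k.2.2 = k'.2.2 ∧ k.2.1 = k'.2.1 ∧ (k.2.1 = 0 ∨ red k.1 = red k'.1)

/-- the point of the sphere -/
noncomputable def pt {n : ℕ} (k : ℝ × ℝ × (Fin n → ℝ)) : EuclideanSpace ℝ (Fin (n + 1 + 1)) :=
  WithLp.toLp 2 (Fin.cons (k.2.1 * Real.cos (Real.pi / 2 * k.1))
    (Fin.cons (k.2.1 * Real.sin (Real.pi / 2 * k.1)) k.2.2 : Fin (n + 1) → ℝ))

lemma pt_zero {n : ℕ} (k : ℝ × ℝ × (Fin n → ℝ)) :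
    pt k 0 = k.2.1 * Real.cos (Real.pi / 2 * k.1) := rfl

lemma pt_one {n : ℕ} (k : ℝ × ℝ × (Fin n → ℝ)) :
    pt k (Fin.succ 0) = k.2.1 * Real.sin (Real.pi / 2 * k.1) := rfl

lemma pt_ss {n : ℕ} (k : ℝ × ℝ × (Fin n → ℝ)) (j : Fin n) :
    pt k (Fin.succ (Fin.succ j)) = k.2.2 j := rfl

lemma pt_cont {n : ℕ} : Continuous (pt (n := n)) := by
  unfold pt
  apply (PiLp.continuous_toLp 2 _).comp
  refine continuous_pi fun i => ?_
  refine Fin.cases ?_ (fun i => ?_) i
  · simp only [Fin.cons_zero]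
    fun_prop
  · refine Fin.cases ?_ (fun i => ?_) i
    · simp only [Fin.cons_succ, Fin.cons_zero]
      fun_prop
    · simp only [Fin.cons_succ]
      fun_prop

lemma pt_norm {n : ℕ} (k : ℝ × ℝ × (Fin n → ℝ)) (hk : k ∈ KK n) : ‖pt k‖ = 1 := by
  have h : ‖pt k‖ ^ 2 = 1 := by
    rw [EuclideanSpace.norm_sq_eq, Fin.sum_univ_succ, Fin.sum_univ_succ]
    simp only [pt_zero, pt_one, pt_ss, Real.norm_eq_abs, sq_abs]
    have h1 := hk.2.2
    have h2 := Real.sin_sq_add_cos_sq (Real.pi / 2 * k.1)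
    nlinarith
  have h0 := norm_nonneg (pt k)
  nlinarith

lemma ang {s s' : ℝ} (hs : s ∈ Ico (0:ℝ) 4) (hs' : s' ∈ Ico (0:ℝ) 4)
    (h1 : Real.cos (Real.pi / 2 * s) = Real.cos (Real.pi / 2 * s'))
    (h2 : Real.sin (Real.pi / 2 * s) = Real.sin (Real.pi / 2 * s')) : s = s' := by
  have h3 : Real.cos (Real.pi / 2 * s - Real.pi / 2 * s') = 1 := by
    rw [Real.cos_sub, h1, h2]
    nlinarith [Real.sin_sq_add_cos_sq (Real.pi / 2 * s')]
  have h4 : Real.pi / 2 * s - Real.pi / 2 * s' = 0 := by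
    have hpi := Real.pi_pos
    rw [← Real.cos_eq_one_iff_of_lt_of_lt (x := Real.pi / 2 * s - Real.pi / 2 * s')]
    · exact h3
    · nlinarith [hs.1, hs.2, hs'.1, hs'.2]
    · nlinarith [hs.1, hs.2, hs'.1, hs'.2]
  have hpi := Real.pi_pos
  have h5 : Real.pi / 2 * (s - s') = 0 := by linarith
  rcases mul_eq_zero.1 h5 with h | h
  · linarith
  · linarith

lemma pt_rel {n : ℕ} {k k' : ℝ × ℝ × (Fin n → ℝ)} (hk : k ∈ KK n) (hk' : k' ∈ KK n) :
    pt k = pt k' ↔ Rel k k' := by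
  have e1 : ∀ s, Real.cos (Real.pi / 2 * red s) = Real.cos (Real.pi / 2 * s) := by
    intro s
    apply red_c (c := fun s => Real.cos (Real.pi / 2 * s))
    rw [show Real.pi / 2 * 4 = 2 * Real.pi by ring]
    simp
  have e2 : ∀ s, Real.sin (Real.pi / 2 * red s) = Real.sin (Real.pi / 2 * s) := by
    intro s
    apply red_c (c := fun s => Real.sin (Real.pi / 2 * s))
    rw [show Real.pi / 2 * 4 = 2 * Real.pi by ring]
    simp
  constructor
  · intro h
    have a0 : pt k 0 = pt k' 0 := by rw [h]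
    have a1 : pt k (Fin.succ 0) = pt k' (Fin.succ 0) := by rw [h]
    have a2 : ∀ j, pt k (Fin.succ (Fin.succ j)) = pt k' (Fin.succ (Fin.succ j)) := by
      intro j
      rw [h]
    rw [pt_zero, pt_zero] at a0
    rw [pt_one, pt_one] at a1
    have hv : k.2.2 = k'.2.2 := by
      funext j
      have := a2 j
      rwa [pt_ss, pt_ss] at this
    have hr : k.2.1 = k'.2.1 := by
      have h1 := hk.2.2
      have h2 := hk'.2.2
      rw [← hv] at h2
      have h3 : k.2.1 ^ 2 = k'.2.1 ^ 2 := by linarith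
      exact (pow_left_inj₀ hk.2.1 hk'.2.1 two_ne_zero).1 h3
    refine ⟨hv, hr, ?_⟩
    rcases eq_or_ne k.2.1 0 with h0 | h0
    · exact Or.inl h0
    · right
      rw [← hr] at a0 a1
      apply ang (red_mem hk.1) (red_mem hk'.1)
      · rw [e1, e1]
        exact mul_left_cancel₀ h0 a0
      · rw [e2, e2]
        exact mul_left_cancel₀ h0 a1
  · rintro ⟨h1, h2, h3⟩
    ext i
    refine Fin.cases ?_ (fun i => ?_) i
    · rw [pt_zero, pt_zero, ← h2]
      rcases h3 with h | h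
      · rw [h, zero_mul, zero_mul]
      · rw [← e1 k.1, ← e1 k'.1, h]
    · refine Fin.cases ?_ (fun i => ?_) i
      · rw [pt_one, pt_one, ← h2]
        rcases h3 with h | h
        · rw [h, zero_mul, zero_mul]
        · rw [← e2 k.1, ← e2 k'.1, h]
      · rw [pt_ss, pt_ss, h1]

lemma polar (a b : ℝ) : ∃ s ∈ Icc (0:ℝ) 4, a = Real.sqrt (a ^ 2 + b ^ 2) *
    Real.cos (Real.pi / 2 * s) ∧ b = Real.sqrt (a ^ 2 + b ^ 2) * Real.sin (Real.pi / 2 * s) := by
  have hpi := Real.pi_pos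
  obtain ⟨z, hz⟩ : ∃ z : ℂ, z = ⟨a, b⟩ := ⟨_, rfl⟩
  have hn : ‖z‖ = Real.sqrt (a ^ 2 + b ^ 2) := by
    rw [Complex.norm_def, Complex.normSq_apply, hz]
    congr 1
    ring
  have h1 : ‖z‖ * Real.cos z.arg = a := by rw [Complex.norm_mul_cos_arg, hz]
  have h2 : ‖z‖ * Real.sin z.arg = b := by rw [Complex.norm_mul_sin_arg, hz]
  rw [← hn]
  rcases le_or_gt 0 z.arg with h | h
  · refine ⟨z.arg / (Real.pi / 2), ⟨by positivity, ?_⟩, ?_, ?_⟩
    · rw [div_le_iff₀ (by positivity)]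
      linarith [Complex.arg_le_pi z]
    · rw [mul_div_cancel₀ _ (by positivity), h1]
    · rw [mul_div_cancel₀ _ (by positivity), h2]
  · refine ⟨(z.arg + 2 * Real.pi) / (Real.pi / 2), ⟨?_, ?_⟩, ?_, ?_⟩
    · have := Complex.neg_pi_lt_arg z
      apply div_nonneg _ (by positivity)
      linarith
    · rw [div_le_iff₀ (by positivity)]
      linarith
    · rw [mul_div_cancel₀ _ (by positivity), Real.cos_add_two_pi, h1]
    · rw [mul_div_cancel₀ _ (by positivity), Real.sin_add_two_pi, h2]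

lemma pt_surj {n : ℕ} (u : EuclideanSpace ℝ (Fin (n + 1 + 1))) (hu : ‖u‖ = 1) :
    ∃ k ∈ KK n, pt k = u := by
  obtain ⟨s, hs, h1, h2⟩ := polar (u 0) (u (Fin.succ 0))
  have h3 : ‖u‖ ^ 2 = 1 := by rw [hu]; norm_num
  rw [EuclideanSpace.norm_sq_eq, Fin.sum_univ_succ, Fin.sum_univ_succ] at h3
  simp only [Real.norm_eq_abs, sq_abs] at h3
  refine ⟨(s, Real.sqrt (u 0 ^ 2 + u (Fin.succ 0) ^ 2), fun j => u (Fin.succ (Fin.succ j))),
    ⟨hs, Real.sqrt_nonneg _, ?_⟩, ?_⟩
  · dsimp only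
    rw [Real.sq_sqrt (by positivity)]
    linarith
  · ext i
    refine Fin.cases ?_ (fun i => ?_) i
    · rw [pt_zero]
      exact h1.symm
    · refine Fin.cases ?_ (fun i => ?_) i
      · rw [pt_one]
        exact h2.symm
      · rw [pt_ss]

lemma q_rel {d n : ℕ} {T : (Fin n → ℝ) →ₗ[ℝ] (Fin d → ℝ)}
    {X Z : (Fin d → ℝ) →ₗ[ℝ] ℝ} {c : ℝ → Fin d → ℝ} (hT : Function.Injective T)
    (hXZ : ∀ v, X (T v) = 0 ∧ Z (T v) = 0) (h04 : c 0 = c 4)
    (hne : ∀ s ∈ Ico (0 : ℝ) 4, ¬ (X (c s) = 0 ∧ Z (c s) = 0))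
    (hinj : ∀ s ∈ Ico (0 : ℝ) 4, ∀ t ∈ Ico (0 : ℝ) 4, ∀ l : ℝ, 0 < l → X (c s) = l * X (c t) →
      Z (c s) = l * Z (c t) → s = t) {k k' : ℝ × ℝ × (Fin n → ℝ)} (hk : k ∈ KK n)
    (hk' : k' ∈ KK n) :
    k.2.1 • c k.1 + T k.2.2 = k'.2.1 • c k'.1 + T k'.2.2 ↔ Rel k k' := by
  obtain ⟨s, r, v⟩ := k
  obtain ⟨s', r', v'⟩ := k'
  obtain ⟨a1, a2, a3⟩ := hk
  obtain ⟨b1, b2, b3⟩ := hk'
  dsimp only at *
  have m1 := red_mem a1
  have m2 := red_mem b1
  rw [← red_c h04 s, ← red_c h04 s']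
  unfold Rel
  dsimp only
  generalize red s = t at *
  generalize red s' = t' at *
  constructor
  · intro h
    have hX : r * X (c t) = r' * X (c t') := by
      have := congrArg X h
      simpa [(hXZ v).1, (hXZ v').1] using this
    have hZ : r * Z (c t) = r' * Z (c t') := by
      have := congrArg Z h
      simpa [(hXZ v).2, (hXZ v').2] using this
    rcases a2.eq_or_lt with h0 | h0
    · have h0' : r' = 0 := by
        by_contra h1
        apply hne t' m2
        rw [← h0, zero_mul] at hX hZ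
        exact ⟨(mul_eq_zero.1 hX.symm).resolve_left h1, (mul_eq_zero.1 hZ.symm).resolve_left h1⟩
      rw [← h0, h0', zero_smul, zero_smul, zero_add, zero_add] at h
      exact ⟨hT h, by rw [← h0, h0'], Or.inl h0.symm⟩
    · have h0' : 0 < r' := by
        rcases b2.eq_or_lt with h1 | h1
        · exfalso
          apply hne t m1
          rw [← h1, zero_mul] at hX hZ
          exact ⟨(mul_eq_zero.1 hX).resolve_left h0.ne', (mul_eq_zero.1 hZ).resolve_left h0.ne'⟩
        · exact h1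
      have htt : t = t' := by
        apply hinj t m1 t' m2 (r' / r) (by positivity)
        · field_simp
          linarith
        · field_simp
          linarith
      subst htt
      have hr : r = r' := by
        by_contra h1
        have h2 : r - r' ≠ 0 := sub_ne_zero.2 h1
        apply hne t m1
        constructor
        · have : (r - r') * X (c t) = 0 := by linarith
          exact (mul_eq_zero.1 this).resolve_left h2
        · have : (r - r') * Z (c t) = 0 := by linarith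
          exact (mul_eq_zero.1 this).resolve_left h2
      subst hr
      exact ⟨hT (add_left_cancel h), rfl, Or.inr rfl⟩
  · rintro ⟨h1, h2, h3⟩
    subst h1 h2
    rcases h3 with h | h
    · rw [h, zero_smul, zero_smul]
    · rw [h]

end Pool.Agent.R274.SH.SphAux

namespace Pool.Agent.R274.SH

open Set Metric Topology SphAux

theorem sph : S_SPH := by
  intro d n T X Z c hT hXZ hc h04 hne hinj
  have : CompactSpace (KK n) := isCompact_iff_compactSpace.1 (KK_compact n)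
  let p : KK n → sphere (0 : EuclideanSpace ℝ (Fin (n + 1 + 1))) 1 := fun k =>
    ⟨pt k.1, by rw [mem_sphere_zero_iff_norm]; exact pt_norm k.1 k.2⟩
  let q : KK n → Join T (c '' Icc 0 4) := fun k =>
    ⟨k.1.2.1 • c k.1.1 + T k.1.2.2, ⟨c k.1.1, ⟨k.1.1, k.2.1, rfl⟩, k.1.2.1, k.1.2.2, k.2.2.1,
      k.2.2.2, rfl⟩⟩
  have hTc : Continuous T := LinearMap.continuous_of_finiteDimensional T
  apply homeo_of_fibers p q
  · exact (pt_cont.comp continuous_subtype_val).subtype_mk _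
  · apply Continuous.subtype_mk
    apply Continuous.add
    · exact ((continuous_fst.comp continuous_snd).comp continuous_subtype_val).smul
        (hc.comp (continuous_fst.comp continuous_subtype_val))
    · exact hTc.comp ((continuous_snd.comp continuous_snd).comp continuous_subtype_val)
  · rintro ⟨u, hu⟩
    obtain ⟨k, hk, h⟩ := pt_surj u (mem_sphere_zero_iff_norm.1 hu)
    exact ⟨⟨k, hk⟩, Subtype.ext h⟩
  · rintro ⟨y, x, ⟨s, hs, rfl⟩, r, v, hr, h1, rfl⟩
    exact ⟨⟨(s, r, v), hs, hr, h1⟩, rfl⟩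
  · intro k k'
    rw [Subtype.ext_iff, Subtype.ext_iff]
    exact (pt_rel k.2 k'.2).trans (q_rel hT hXZ h04 hne hinj k.2 k'.2).symm

end Pool.Agent.R274.SH
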